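import Pool.Agent.Helper95_CLB.UStar

/-!
Finite facts about labels.
-/

set_option autoImplicit false

namespace CLB.H45

open H3DA (Q neg nr)
open CLB.H95

/-- One unit between two walls: only the current label and the conflict label. -/
lemma one_fin' : ∀ L r t h : Q, (nr t L && nr t r) = true → t ≠ neg h →
    (∀ t' : Q, (nr t' L && nr t' r) = true → t' = neg h ∨ t' = t) →
    neg h = add t (add L r) := by decide +kernel

lemma one_fin (L r t h : Q) (h1 : nr t L = true) (h2 : nr t r = true) (h3 : t ≠ neg h)
    (h4 : ∀ t', nr t' L = true → nr t' r = true → t' ≠ neg h → t' = t) :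
    neg h = add t (add L r) := by
  refine one_fin' L r t h (by rw [h1, h2]; rfl) h3 fun t' ht' => ?_
  rw [Bool.and_eq_true] at ht'
  by_cases h5 : t' = neg h
  · exact Or.inl h5
  · exact Or.inr (h4 t' ht'.1 ht'.2 h5)

lemma ff_fin : ∀ L t r : Q, nr t L = true → nr t r = true →
    nr r (add t (add L r)) = true → t ≠ add t (add L r) → r ≠ L →
    3 ≤ (Finset.univ.filter (fun t' : Q => ∃ r' : Q, nr t' L = true ∧ nr t' r' = true ∧
      nr r' (add t (add L r)) = true ∧ t' ≠ add t (add L r) ∧ r' ≠ L)).card := by decide +kernel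

/-- The sums of the two forks are equal. -/
lemma ff_sum : ∀ L W t r hA hB : Q, neg hA = add t (add L r) → neg hB = add r (add t W) →
    add r hB = add t hA → W = add t (add L r) ∧ neg hB = L := by
  have k1 : ∀ a b : Q, neg a = b → a = neg b := by decide
  have k2 : ∀ L W t r : Q, add r (neg (add r (add t W))) = add t (neg (add t (add L r))) →
      W = add t (add L r) ∧ add r (add t W) = L := by decide +kernel
  intro L W t r hA hB e1 e2 e3
  rw [k1 _ _ e1, k1 _ _ e2] at e3
  rw [e2]
  exact k2 L W t r e3

end CLB.H45
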