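import Pool.Agent.Helper45_DA.Shp
import Pool.Agent.Helper45_DA.Dec

/-!
Two neighbouring full units inside a chain.
-/

set_option autoImplicit false
set_option linter.unusedSectionVars false

namespace CLB.H45

open Finset Classical
open H3DA (Q neg nr)
open CLB.H3 (CExt Cat IsTwo Fits UPath he_of_unc cat_structure chn_side KTight exists_ktight no_cext
  Leaf cext_or fits_other TB tb_inner2 tb_leaf2 pos)
open CLB.H95

variable {V : Type*} {G : SimpleGraph V} {R : V → Bool} [Fintype V] {k r : ℕ} {x y X Y : ℕ → V}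
  {m : ℕ} {z c : ℕ → V} {f : V → Q} {cur : ℕ → Q} {L W : Q}

lemma inC_two {X Y : ℕ → V} {u : V} : InC 2 X Y u ↔ InU X Y 1 u ∨ InU X Y 2 u := by
  constructor
  · rintro ⟨i, h1, h2, h3⟩
    have : i = 1 ∨ i = 2 := by omega
    rcases this with rfl | rfl
    · exact Or.inl h3
    · exact Or.inr h3
  · rintro (h | h)
    · exact ⟨1, le_rfl, by norm_num, h⟩
    · exact ⟨2, by norm_num, le_rfl, h⟩

/-- A walk of two units. -/
def wk2 (t r : Q) (i : ℕ) : Q := if i = 1 then t else r

theorem ffi_core (hG : ClassC G R) (hc : Crit G R) (hcat : Cat G R m z c) (hm : 6 ≤ m)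
    (h : Chn G R k x y) {v : ℕ} (h1 : 2 ≤ v) (h2 : v + 2 ≤ k) {l g l' g' : ℕ}
    (s : Shp G R x y m c v l g) (s' : Shp G R x y m c (v + 1) l' g') (hl : l = 0 ∨ l = 1)
    (hl' : l' = m ∨ l' = m + 1) : False := by
  have pl : pos m l = 1 := by
    rcases hl with rfl | rfl
    · exact posl m
    · exact posm (by omega) (by omega)
  have pl' : pos m l' = m := by
    rcases hl' with rfl | rfl
    · exact posm (by omega) le_rfl
    · exact posr m
  have par := port_par h hcat s.l1 s'.l1 (u := v) (v := v + 1) ⟨by omega, by omega⟩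
    ⟨by omega, by omega⟩ s.inl s'.inl
  rw [pl, pl'] at par
  have m0 : m % 2 = 0 := by omega
  have hmod := s.mod
  have hfar := s.far
  have hmod' := s'.mod
  have hfar' := s'.far
  rw [pl] at hmod hfar
  rw [pl'] at hmod' hfar'
  have b1 := pos_mem (show 1 ≤ m by omega) s.g1
  have b2 := pos_mem (show 1 ≤ m by omega) s'.g1
  have g1 := s.g1
  have g1' := s'.g1
  have ge : pos m g = g := by
    have c1 : g ≠ 0 := by rintro rfl; rw [posl] at hfar; omega
    have c2 : g ≠ m + 1 := by rintro rfl; rw [posr] at hmod; omega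
    exact posm (by omega) (by omega)
  have ge' : pos m g' = g' := by
    have c1 : g' ≠ 0 := by rintro rfl; rw [posl] at hmod'; omega
    have c2 : g' ≠ m + 1 := by rintro rfl; rw [posr] at hfar'; omega
    exact posm (by omega) (by omega)
  rw [ge] at hmod hfar b1
  rw [ge'] at hmod' hfar' b2
  obtain ⟨f0, D0, hK⟩ := exists_ktight hG hc hcat (show 2 ≤ m by omega)
  obtain ⟨j0, j01, j02⟩ := s.px
  obtain ⟨f, cur, L, W, w, -⟩ := iw_of hG hc hcat (by omega) h hK h1 (show v ≤ v + 1 by omega)
    (by omega) ⟨j0, j01, v, le_rfl, by omega, Or.inl j02⟩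
  rw [show v + 1 + 1 - v = 2 by omega] at w
  set X : ℕ → V := fun i => x (v - 1 + i) with hX
  set Y : ℕ → V := fun i => y (v - 1 + i) with hY
  have u1 : ∀ u, InU X Y 1 u ↔ InU x y v u := by
    intro u
    show (u = x (v - 1 + 1) ∨ u = y (v - 1 + 1)) ↔ _
    rw [show v - 1 + 1 = v by omega]; rfl
  have u2 : ∀ u, InU X Y 2 u ↔ InU x y (v + 1) u := by
    intro u
    show (u = x (v - 1 + 2) ∨ u = y (v - 1 + 2)) ↔ _
    rw [show v - 1 + 2 = v + 1 by omega]; rfl
  have o1 : Own X Y m c 1 := by
    refine ⟨?_, ?_⟩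
    · show ∃ j ≤ m + 1, c j = x (v - 1 + 1)
      rw [show v - 1 + 1 = v by omega]; exact s.px
    · show ∃ j ≤ m + 1, c j = y (v - 1 + 1)
      rw [show v - 1 + 1 = v by omega]; exact s.py
  have o2 : Own X Y m c 2 := by
    refine ⟨?_, ?_⟩
    · show ∃ j ≤ m + 1, c j = x (v - 1 + 2)
      rw [show v - 1 + 2 = v + 1 by omega]; exact s'.px
    · show ∃ j ≤ m + 1, c j = y (v - 1 + 2)
      rw [show v - 1 + 2 = v + 1 by omega]; exact s'.py
  have only1 : ∀ j ≤ m + 1, InU X Y 1 (c j) → j = l ∨ j = g := fun j hj hin =>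
    s.only j hj ((u1 _).1 hin)
  have only2 : ∀ j ≤ m + 1, InU X Y 2 (c j) → j = l' ∨ j = g' := fun j hj hin =>
    s'.only j hj ((u2 _).1 hin)
  have out : ∀ j ≤ m + 1, j ≠ l → j ≠ g → j ≠ l' → j ≠ g' → ¬ InC 2 X Y (c j) := by
    intro j hj n1 n2 n3 n4 hin
    rcases inC_two.1 hin with hin | hin
    · rcases only1 j hj hin with e | e
      · exact n1 e
      · exact n2 e
    · rcases only2 j hj hin with e | e
      · exact n3 e
      · exact n4 e
  have in1 : InU X Y 1 (c l) := (u1 _).2 s.inl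
  have in2 : InU X Y 2 (c l') := (u2 _).2 s'.inl
  obtain ⟨hA, hAx⟩ := forkL (f := f) w.ch hl le_rfl (by norm_num) in1
    (out _ (by omega) (by omega) (by omega) (by omega) (by omega))
  obtain ⟨hB, hBx⟩ := forkR (f := f) w.ch hl' (by norm_num) le_rfl in2
    (out _ (by omega) (by omega) (by omega) (by omega) (by omega))
  -- walks are tight
  have key : ∀ t' r' : Q, nr t' L = true → nr t' r' = true → nr r' W = true → t' ≠ neg hA →
      r' ≠ neg hB → ∃ D, Tight D (fun j => lbl 2 X Y (wk2 t' r') f (c j)) m := by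
    intro t' r' a1 a2 a3 a4 a5
    refine w.walk (mu := wk2 t' r') (fun i i1 i2 => ?_) a1 a3 (fun i i1 i2 => ?_) ⟨?_, ?_⟩
    · have : i = 1 := by omega
      subst this
      exact a2
    · have : i = 1 ∨ i = 2 := by omega
      rcases this with rfl | rfl
      · exact Or.inr o1
      · exact Or.inr o2
    · rw [(hAx _).1]; exact a4
    · rw [(hBx _).1]; exact a5
  obtain ⟨D, hT⟩ := w.cur_tight
  have n12 : nr (cur 1) (cur 2) = true := w.nwk 1 le_rfl (by norm_num)
  have nA : cur 1 ≠ neg hA := (hAx cur).1.1 (frk_ne _ _ _ hT.1).2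
  have nB : cur 2 ≠ neg hB := (hBx cur).1.1 (frk_ne _ _ _ hT.2.2).2
  have hsum : add (cur 2) hB = add (cur 1) hA := by
    rw [← (hAx cur).2, ← (hBx cur).2]
    have := tight_sums hT
    rw [if_pos m0] at this
    exact this
  have U1 : neg hA = add (cur 1) (add L (cur 2)) := by
    refine one_fin L (cur 2) (cur 1) hA w.hL n12 nA fun t' a1 a2 a3 => ?_
    obtain ⟨D', hT'⟩ := key t' (cur 2) a1 a2 w.hW a3 nB
    have := win_one hG hcat (by omega) w.ch (v := 1) le_rfl (by norm_num) (mu := wk2 t' (cur 2))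
      (mu' := cur) (fun i i1 i2 i3 => ?_) ⟨l, s.l1, in1⟩ ?_ hT' hT
    · exact this
    · have : i = 2 := by omega
      subst this; rfl
    · rintro ⟨-, h3 | h3⟩
      · rcases only1 _ (by omega) h3 with e | e <;> omega
      · rcases only1 _ (by omega) h3 with e | e <;> omega
  have U2 : neg hB = add (cur 2) (add (cur 1) W) := by
    refine one_fin (cur 1) W (cur 2) hB (nr_symm n12) w.hW nB
      fun t' a1 a2 a3 => ?_
    obtain ⟨D', hT'⟩ := key (cur 1) t' w.hL (nr_symm a1) a2 nA a3
    have := win_one hG hcat (by omega) w.ch (v := 2) (by norm_num) le_rfl (mu := wk2 (cur 1) t')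
      (mu' := cur) (fun i i1 i2 i3 => ?_) ⟨l', s'.l1, in2⟩ ?_ hT' hT
    · exact this
    · have : i = 1 := by omega
      subst this; rfl
    · rintro ⟨h3 | h3, -⟩
      · rcases only2 _ (by omega) h3 with e | e <;> omega
      · rcases only2 _ (by omega) h3 with e | e <;> omega
  obtain ⟨e1, e2⟩ := ff_sum L W (cur 1) (cur 2) hA hB U1 U2 hsum
  have hcard := ff_fin L (cur 1) (cur 2) w.hL n12 (by rw [← e1]; exact w.hW) (by rw [← U1]; exact nA)
    (by rw [← e2]; exact nB)
  have hTB : ∃ g0, g0 ≤ m + 1 ∧ InU X Y 1 (c g0) ∧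
      TB m (fun j => InC 2 X Y (c j)) (fun j => f (c j)) g0 2 := by
    by_cases hg' : g' = 2
    · refine ⟨g, g1, (u1 _).2 s.ing, ?_⟩
      by_cases hgl : g + 1 = l'
      · refine TB.swR (by omega) ?_
        have e3 : swR m g = g := by
          unfold swR; rw [if_neg (by omega), if_neg (by omega)]
        rw [e3]
        refine tb_inner2 (by omega) (by omega) ?_ ?_
        · show ¬ InC 2 X Y (c (swR m (g - 1)))
          rw [show swR m (g - 1) = g - 1 by unfold swR; rw [if_neg (by omega), if_neg (by omega)]]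
          exact out _ (by omega) (by omega) (by omega) (by omega) (by omega)
        · show ¬ InC 2 X Y (c (swR m (g + 1)))
          rw [show swR m (g + 1) = m + 1 by unfold swR; rw [if_pos (by omega)]]
          exact out _ (by omega) (by omega) (by omega) (by omega) (by omega)
      · exact tb_inner2 (by omega) (by omega)
          (out _ (by omega) (by omega) (by omega) (by omega) (by omega))
          (out _ (by omega) (by omega) (by omega) (by omega) (by omega))
    · refine ⟨l, s.l1, in1, ?_⟩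
      have o2 : ¬ InC 2 X Y (c 2) := out _ (by omega) (by omega) (by omega) (by omega) (by omega)
      have o3 : ¬ InC 2 X Y (c 3) := out _ (by omega) (by omega) (by omega) (by omega) (by omega)
      rcases hl with rfl | rfl
      · exact tb_leaf2 (by omega)
          (out _ (by omega) (by omega) (by omega) (by omega) (by omega)) o2 o3
      · refine TB.swL (by omega) ?_
        rw [show swL 1 = 0 by unfold swL; simp]
        refine tb_leaf2 (by omega) ?_ ?_ ?_
        · show ¬ InC 2 X Y (c (swL 1))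
          rw [show swL 1 = 0 by unfold swL; simp]
          exact out _ (by omega) (by omega) (by omega) (by omega) (by omega)
        · show ¬ InC 2 X Y (c (swL 2))
          rw [show swL 2 = 2 by unfold swL; simp]; exact o2
        · show ¬ InC 2 X Y (c (swL 3))
          rw [show swL 3 = 3 by unfold swL; simp]; exact o3
  obtain ⟨g0, -, hin0, hTB⟩ := hTB
  have hle := w.tb_card (i := 1) le_rfl (by norm_num) hin0 hTB
    (S := univ.filter (fun t' : Q => ∃ r' : Q, nr t' L = true ∧ nr t' r' = true ∧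
      nr r' (add (cur 1) (add L (cur 2))) = true ∧ t' ≠ add (cur 1) (add L (cur 2)) ∧ r' ≠ L))
    (fun t ht => by
      rw [mem_filter] at ht
      obtain ⟨-, r', a1, a2, a3, a4, a5⟩ := ht
      obtain ⟨D', hT'⟩ := key t r' a1 a2 (by rw [e1]; exact a3) (by rw [U1]; exact a4)
        (by rw [e2]; exact a5)
      exact ⟨wk2 t r', D', rfl, hT'⟩)
  have h3 := hcard.trans (le_of_eq (by congr))
  omega

/-- **Two neighbouring full units inside a chain.** -/
theorem ffi (hG : ClassC G R) (hc : Crit G R) (hcat : Cat G R m z c) (hm : 6 ≤ m)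
    (h : Chn G R k x y) {v : ℕ} (h1 : 2 ≤ v) (h2 : v + 2 ≤ k) (a1 : ∃ j ≤ m + 1, c j = x v)
    (a2 : ∃ j ≤ m + 1, c j = y v) (a3 : ∃ j ≤ m + 1, c j = x (v + 1))
    (a4 : ∃ j ≤ m + 1, c j = y (v + 1)) : False := by
  obtain ⟨l, g, s⟩ := shp hG hc hcat (by omega) h h1 (by omega) a1 a2
  obtain ⟨l', g', s'⟩ := shp hG hc hcat (by omega) h (v := v + 1) (by omega) (by omega) a3 a4
  have par := port_par h hcat s.l1 s'.l1 (u := v) (v := v + 1) ⟨by omega, by omega⟩
    ⟨by omega, by omega⟩ s.inl s'.inl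
  have pp : ∀ j, (j = 0 ∨ j = 1) → pos m j = 1 := by
    rintro j (rfl | rfl)
    · exact posl m
    · exact posm (by omega) (by omega)
  have qq : ∀ j, (j = m ∨ j = m + 1) → pos m j = m := by
    rintro j (rfl | rfl)
    · exact posm (by omega) le_rfl
    · exact posr m
  have hl : (l = 0 ∨ l = 1) ∨ (l = m ∨ l = m + 1) := by rcases s.leaf with h | h | h | h <;> simp [h]
  have hl' : (l' = 0 ∨ l' = 1) ∨ (l' = m ∨ l' = m + 1) := by
    rcases s'.leaf with h | h | h | h <;> simp [h]
  rcases hl with hl | hl <;> rcases hl' with hl' | hl'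
  · rw [pp _ hl, pp _ hl'] at par; omega
  · exact ffi_core hG hc hcat hm h h1 h2 s s' hl hl'
  · exact ffi_core hG hc (cat_rev hcat) hm h h1 h2 (s.rev (by omega)) (s'.rev (by omega)) (by omega)
      (by omega)
  · rw [qq _ hl, qq _ hl'] at par; omega

end CLB.H45
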