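import Pool.Agent.Helper45_DA.FUFI
import Pool.Agent.Helper95_CLB.WinU
import Pool.Agent.Helper80_DA.CleanEnd

/-!
Two full units around an unseen unit, next to the end of an open chain.
-/

set_option autoImplicit false
set_option linter.unusedSectionVars false

namespace CLB.H45

open Finset Classical
open H3DA (Q neg nr)
open CLB.H3 (CExt Cat pos)
open CLB.H95

variable {V : Type*} {G : SimpleGraph V} {R : V → Bool} [Fintype V] {k r : ℕ} {x y X Y : ℕ → V}
  {m : ℕ} {z c : ℕ → V} {f : V → Q} {cur : ℕ → Q} {L W : Q}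

/-- Own ports are not foreign. -/
lemma fp_add_own (hcat : Cat G R m z c) {v : V} {j : ℕ} (hj : j ≤ m + 1) (he : c j = v) :
    fp G R m z v + 1 ≤ (prt G R v).card := by
  have a1 := cl_mem hcat.pos hj
  have hin : z (cl m j) ∈ prt G R v := by
    rw [mem_prt, ← he]; exact ⟨cat_adj_cl hcat hj, hcat.unc _ a1.1 a1.2⟩
  have : (prt G R v).filter (fun w => w ∉ cSupp m z) ⊆ (prt G R v).erase (z (cl m j)) := by
    intro w hw
    rw [mem_filter] at hw
    rw [mem_erase]
    refine ⟨fun e => hw.2 ?_, hw.1⟩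
    rw [e]; exact mem_cSupp a1.1 a1.2
  have h2 := Finset.card_le_card this
  rw [Finset.card_erase_of_mem hin] at h2
  have h3 : 1 ≤ (prt G R v).card := Finset.card_pos.2 ⟨_, hin⟩
  unfold fp
  omega

lemma exists_big {A : Finset Q} (hA : 7 ≤ A.card) : ∃ a : Q, ∀ t, t ≠ a → t ∈ A := by
  have h8 : (univ : Finset Q).card = 8 := by decide
  have h1 : (univ \ A).card ≤ 1 := by
    rw [Finset.card_sdiff_of_subset (Finset.subset_univ _)]
    omega
  by_cases he : (univ \ A).Nonempty
  · obtain ⟨a, ha⟩ := he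
    refine ⟨a, fun t ht => ?_⟩
    by_contra hcon
    exact ht (Finset.card_le_one.1 h1 _ (mem_sdiff.2 ⟨mem_univ _, hcon⟩) _ ha)
  · refine ⟨(false, false, false), fun t _ => ?_⟩
    by_contra hcon
    exact he ⟨t, mem_sdiff.2 ⟨mem_univ _, hcon⟩⟩

lemma same_four : ∀ a t1 t1' t3 : Q, ∀ t2 : Q, a = add t2 (add t1 t3) → a = add t2 (add t1' t3) →
    t1 = t1' := by decide +kernel

lemma pos_cl (m j : ℕ) : pos m j = cl m j := rfl

/-- A walk of four units. -/
def wk4 (t1 t2 t3 t4 : Q) (i : ℕ) : Q := if i = 1 then t1 else if i = 2 then t2 else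
  if i = 3 then t3 else t4

section

variable (hG : ClassC G R) (hcat : Cat G R m z c) (hm : 6 ≤ m) (h : Chn G R k x y) (hk : 7 ≤ k)
  {l g l' g' : ℕ} (s : Shp G R x y m c 2 l g) (s' : Shp G R x y m c 4 l' g')
  (pl : pos m l = 1) (pl' : pos m l' = m) (gi : 2 ≤ g ∧ g + 1 ≤ m) (gi' : 2 ≤ g' ∧ g' + 1 ≤ m)
include hG hcat hm h hk s s' pl pl' gi gi'

/-- No vertex sees different letters of units 2 and 4. -/
lemma no_rel24 : ¬ RelAt G R x y 2 4 := by
  have key : ∀ w a b, ¬ Cov G R w → G.Adj w a → G.Adj w b → (a = x 2 ∨ a = y 2) →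
      (b = x 4 ∨ b = y 4) → False := by
    intro w a b hw ha hb h1 h2
    have own : ∀ a, G.Adj w a → (∃ u, Lk G R a u) → ∀ j ≤ m + 1, c j = a → w = z (cl m j) := by
      rintro a ha ⟨u, hl⟩ j hj he
      have a1 := cl_mem hcat.pos hj
      refine Finset.card_le_one.1 (prt_card_lk hG hl) _ ?_ _ ?_
      · rw [mem_prt]; exact ⟨ha.symm, hw⟩
      · rw [mem_prt, ← he]; exact ⟨cat_adj_cl hcat hj, hcat.unc _ a1.1 a1.2⟩
    have lkx : ∀ v, 2 ≤ v → v ≤ k → ∃ u, Lk G R (x v) u := by
      intro v v1 v2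
      have := h.lk (v - 1) (by omega) (by omega)
      rw [show v - 1 + 1 = v by omega] at this
      exact ⟨_, this.symm⟩
    have lky : ∀ v, 1 ≤ v → v < k → ∃ u, Lk G R (y v) u := fun v v1 v2 => ⟨_, h.lk v v1 v2⟩
    have la : ∃ u, Lk G R a u := by
      rcases h1 with rfl | rfl
      · exact lkx 2 le_rfl (by omega)
      · exact lky 2 (by omega) (by omega)
    have lb : ∃ u, Lk G R b u := by
      rcases h2 with rfl | rfl
      · exact lkx 4 (by omega) (by omega)
      · exact lky 4 (by omega) (by omega)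
    obtain ⟨j, hj, ej⟩ : ∃ j ≤ m + 1, c j = a := by
      rcases h1 with rfl | rfl
      · exact s.px
      · exact s.py
    obtain ⟨j', hj', ej'⟩ : ∃ j ≤ m + 1, c j = b := by
      rcases h2 with rfl | rfl
      · exact s'.px
      · exact s'.py
    have e1 := own a ha la j hj ej
    have e2 := own b hb lb j' hj' ej'
    have a1 := cl_mem hcat.pos hj
    have a2 := cl_mem hcat.pos hj'
    have e3 := hcat.inj _ _ a1.1 a1.2 a2.1 a2.2 (e1.symm.trans e2)
    have q1 := s.only j hj (by rw [ej]; exact h1)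
    have q2 := s'.only j' hj' (by rw [ej']; exact h2)
    rw [← pos_cl, ← pos_cl] at e3
    have pg : pos m g = g := posm (by omega) (by omega)
    have pg' : pos m g' = g' := posm (by omega) (by omega)
    rcases q1 with rfl | rfl <;> rcases q2 with rfl | rfl
    · omega
    · omega
    · omega
    · have : j = j' := by omega
      subst this
      have b1 := InU.idx h (i := 2) (by norm_num) (by omega) s.ing
      have b2 := InU.idx h (i := 4) (by norm_num) (by omega) s'.ing
      omega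
  rintro ⟨w, hw, ⟨h1, h2⟩ | ⟨h1, h2⟩⟩
  · exact key w _ _ hw h1 h2 (Or.inl rfl) (Or.inr rfl)
  · exact key w _ _ hw h1 h2 (Or.inr rfl) (Or.inl rfl)

end

/-- **The case at the left end, the leaf of the second unit on the left.** -/
theorem sfuf_left (hG : ClassC G R) (hc : Crit G R) (hcat : Cat G R m z c) (hm : 6 ≤ m)
    (h : Chn G R k x y) (hk : 7 ≤ k) (e1 : ∀ w, ¬ Lk G R (x 1) w) (e2 : ∀ w, ¬ Lk G R (y k) w)
    {l g l' g' : ℕ} (s : Shp G R x y m c 2 l g) (s' : Shp G R x y m c 4 l' g')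
    (hodd : m % 2 = 1) (pl : pos m l = 1) (pl' : pos m l' = m) (gi : 2 ≤ g ∧ g + 1 ≤ m)
    (gi' : 2 ≤ g' ∧ g' + 1 ≤ m) (hun : ∀ j ≤ m + 1, c j ≠ x 3 ∧ c j ≠ y 3)
    (h1 : ∃ j ≤ m + 1, InU x y 1 (c j)) : False := by
  have hrel := no_rel24 hG hcat hm h hk s s' pl pl' gi gi'
  have hl := s.posl_of hm pl
  have hl' := s'.posr_of hm pl'
  -- ports in the window
  have idx1 : ∀ {v : V} {i : ℕ}, 1 ≤ i → i ≤ k → InU x y i v → idx k x y v = i :=
    fun a b c => InU.idx h a b c
  have nU : ∀ i j u : ℕ, 1 ≤ i → i ≤ 4 → 1 ≤ j → j ≤ 4 → InU x y i (c u) → InU x y j (c u) → i = j := by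
    intro i j u a b a' b' p q
    have := idx1 a (by omega) p
    have := idx1 a' (by omega) q
    omega
  have n1l : ∀ j ≤ m + 1, InU x y 1 (c j) → pos m j ≠ 1 ∧ pos m j ≠ m := by
    intro j hj hin
    have p1 := port_par h hcat hj s.l1 (u := 1) (v := 2) ⟨by omega, by omega⟩ ⟨by omega, by omega⟩
      hin s.inl
    have p2 := port_par h hcat hj s'.l1 (u := 1) (v := 4) ⟨by omega, by omega⟩ ⟨by omega, by omega⟩
      hin s'.inl
    rw [pl] at p1
    rw [pl'] at p2
    constructor <;> omega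
  have p0 := posl m
  have pm1 := posr m
  have p1 : pos m 1 = 1 := posm le_rfl (by omega)
  have pm : pos m m = m := posm (by omega) le_rfl
  obtain ⟨f, D, w⟩ := wb_open (r := 4) hG hc hcat (by omega) h e1 (by omega) (by omega)
    ⟨l, s.l1, s.inl.inC (by norm_num) (by norm_num)⟩
  have inC4 : ∀ j ≤ m + 1, InC 4 x y (c j) → InU x y 1 (c j) ∨ j = l ∨ j = g ∨ j = l' ∨ j = g' := by
    rintro j hj ⟨i, i1, i2, i3⟩
    have : i = 1 ∨ i = 2 ∨ i = 3 ∨ i = 4 := by omega
    rcases this with rfl | rfl | rfl | rfl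
    · exact Or.inl i3
    · rcases s.only j hj i3 with e | e
      · exact Or.inr (Or.inl e)
      · exact Or.inr (Or.inr (Or.inl e))
    · rcases i3 with i3 | i3
      · exact absurd i3 (hun j hj).1
      · exact absurd i3 (hun j hj).2
    · rcases s'.only j hj i3 with e | e
      · exact Or.inr (Or.inr (Or.inr (Or.inl e)))
      · exact Or.inr (Or.inr (Or.inr (Or.inr e)))
  have outL : ¬ InC 4 x y (c (1 - l)) := by
    intro hin
    rcases inC4 _ (by omega) hin with hh | hh | hh | hh | hh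
    · have := (n1l _ (by omega) hh).1
      have : pos m (1 - l) = 1 := by rcases hl with rfl | rfl <;> simpa using ‹_›
      contradiction
    all_goals omega
  have outR : ¬ InC 4 x y (c (2 * m + 1 - l')) := by
    intro hin
    rcases inC4 _ (by omega) hin with hh | hh | hh | hh | hh
    · have h3 := (n1l _ (by omega) hh).2
      have : pos m (2 * m + 1 - l') = m := by
        rcases hl' with rfl | rfl
        · rw [show 2 * l' + 1 - l' = l' + 1 by omega]; exact pm1
        · rw [show 2 * m + 1 - (m + 1) = m by omega]; exact pm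
      contradiction
    all_goals omega
  -- foreign ports
  have f2x : fp G R m z (x 2) = 0 := by
    obtain ⟨j, hj, e⟩ := s.px
    have := fp_add_own hcat hj e
    have := prt_card_lk hG (h.lk 1 le_rfl (by omega)).symm
    simp only [Nat.reduceAdd] at this
    omega
  have f2y : fp G R m z (y 2) = 0 := by
    obtain ⟨j, hj, e⟩ := s.py
    have := fp_add_own hcat hj e
    have := prt_card_lk hG (h.lk 2 (by omega) (by omega))
    omega
  have f4x : fp G R m z (x 4) = 0 := by
    obtain ⟨j, hj, e⟩ := s'.px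
    have := fp_add_own hcat hj e
    have := prt_card_lk hG (h.lk 3 (by omega) (by omega)).symm
    simp only [Nat.reduceAdd] at this
    omega
  have f4y : fp G R m z (y 4) = 0 := by
    obtain ⟨j, hj, e⟩ := s'.py
    have := fp_add_own hcat hj e
    have := prt_card_lk hG (h.lk 4 (by omega) (by omega))
    omega
  have f3x : fp G R m z (x 3) ≤ 1 := fp_lk hG (h.lk 2 (by omega) (by omega)).symm
  have f3y : fp G R m z (y 3) ≤ 1 := fp_lk hG (h.lk 3 (by omega) (by omega))
  have f1 : fp G R m z (x 1) + fp G R m z (y 1) ≤ 2 := by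
    have a1 : (prt G R (x 1)).card ≤ 2 := prt_card hG (h.cov (InC.x (x := x) (y := y) le_rfl (by omega)))
    have a2 : (prt G R (y 1)).card ≤ 1 := prt_card_lk hG (h.lk 1 le_rfl (by omega))
    have a3 := fp_le_prt (G := G) (R := R) (m := m) (z := z) (x 1)
    have a4 := fp_le_prt (G := G) (R := R) (m := m) (z := z) (y 1)
    obtain ⟨j, hj, e | e⟩ := h1
    · have := fp_add_own hcat hj e
      omega
    · have := fp_add_own hcat hj e
      omega
  -- the window is clean
  have hown : 2 * 4 ≤ 4 + ((range (m + 2)).filter (fun j => InC 4 x y (c j))).card := by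
    have hsub : ({l, g, l', g'} : Finset ℕ) ⊆ (range (m + 2)).filter (fun j => InC 4 x y (c j)) := by
      intro j hj
      rw [mem_insert, mem_insert, mem_insert, mem_singleton] at hj
      rw [mem_filter, mem_range]
      rcases hj with rfl | rfl | rfl | rfl
      · exact ⟨by omega, s.inl.inC (by norm_num) (by norm_num)⟩
      · exact ⟨by omega, s.ing.inC (by norm_num) (by norm_num)⟩
      · exact ⟨by omega, s'.inl.inC (by norm_num) (by norm_num)⟩
      · exact ⟨by omega, s'.ing.inC (by norm_num) (by norm_num)⟩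
    have hc4 : ({l, g, l', g'} : Finset ℕ).card = 4 := by
      have gg : g ≠ g' := by
        rintro rfl
        have := nU 2 4 g (by norm_num) (by norm_num) (by norm_num) (by norm_num) s.ing s'.ing
        omega
      rw [Finset.card_insert_of_notMem, Finset.card_insert_of_notMem, Finset.card_insert_of_notMem,
        Finset.card_singleton]
      · simp only [mem_singleton]; omega
      · simp only [mem_insert, mem_singleton]; omega
      · simp only [mem_insert, mem_singleton]; omega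
    have := Finset.card_le_card hsub
    omega
  have nox2 : ∀ m' z' c', Cat G R m' z' c' → cSupp m' z' ≠ cSupp m z → ∀ j ≤ m' + 1, c' j ≠ x 2 := by
    intro m' z' c' hC hne j hj he
    obtain ⟨i, hi, e⟩ := s.px
    exact hne (supp_x2 hG w.ch (by norm_num) hC hcat hj hi he e)
  have hcl : CleanC G R 4 x y m z := by
    intro m' z' c' hC hne hex
    obtain ⟨o1, o2⟩ := CLB.H80.clean_end' hG hc h ⟨e1, e2⟩ hcat (r := 4) (by omega)
      (Or.inr ⟨le_rfl, hk⟩) hown hC hne
    refine ⟨o1, fun hm' => ?_⟩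
    rcases o2 hm' with h3 | h3 | h3
    · exact Or.inl ⟨by norm_num, h3⟩
    · exfalso
      obtain ⟨rfl, -, o, o', q, q', l1, l2, -, -, -, q3, -⟩ := h3
      refine nox2 2 z' c' hC hne q ?_ q3
      rcases l2 with ⟨rfl, rfl⟩ | ⟨rfl, rfl⟩ | ⟨rfl, rfl⟩ | ⟨rfl, rfl⟩ <;> omega
    · exact Or.inr h3
  have noC : ¬ HasCpl G R 4 x y m z := by
    rintro ⟨m', z', c', k1, k2, k3⟩
    obtain ⟨j, hj, e⟩ := k3.x2
    exact nox2 m' z' c' k1 k2 j hj e
  obtain ⟨P, hP⟩ := ekill_clean w.hG w.ch w.off hcl true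
  obtain ⟨Φ, hcst, hwk⟩ := w.walks (by norm_num) true (bd := fun _ _ => 2) (fun _ _ _ _ => by norm_num) hP
  have hc2 : ∀ v, cst G R Φ v ≤ 2 * fp G R m z v := by
    intro v
    have b1 := hcst v
    rw [chb_two] at b1
    have b2 := chg_le_fp (G := G) (R := R) (r := 4) (X := x) (Y := y) (m := m) (z := z) true v
    omega
  -- confinements
  have cn0 : ∀ (i : ℕ) (a b : V), ¬ InU x y i a → cn1 4 x y i a b = 0 := by
    intro i a b hab
    unfold cn1
    rw [if_neg (fun hh => hab hh.1)]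
  have cn1' : ∀ (i : ℕ) (a b : V), cn1 4 x y i a b ≤ 1 := by
    intro i a b
    unfold cn1
    split_ifs <;> omega
  have c1z : cnf 4 x y m c 1 = 0 := by
    unfold cnf
    rw [cn0 1 _ _ (fun hh => (n1l 0 (by omega) hh).1 p0), cn0 1 _ _ (fun hh => (n1l 1 (by omega) hh).1 p1),
      cn0 1 _ _ (fun hh => (n1l m (by omega) hh).2 pm),
      cn0 1 _ _ (fun hh => (n1l (m + 1) (by omega) hh).2 pm1)]
  have nu3 : ∀ j ≤ m + 1, ¬ InU x y 3 (c j) := by
    rintro j hj (hh | hh)
    · exact (hun j hj).1 hh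
    · exact (hun j hj).2 hh
  have c3z : cnf 4 x y m c 3 = 0 := by
    unfold cnf
    rw [cn0 3 _ _ (nu3 0 (by omega)), cn0 3 _ _ (nu3 1 (by omega)), cn0 3 _ _ (nu3 m (by omega)),
      cn0 3 _ _ (nu3 (m + 1) (by omega))]
  have c2o : cnf 4 x y m c 2 ≤ 1 := by
    have q1 : ¬ InU x y 2 (c m) := fun hh => by
      rcases s.only m (by omega) hh with e | e <;> omega
    have q2 : ¬ InU x y 2 (c (m + 1)) := fun hh => by
      rcases s.only (m + 1) (by omega) hh with e | e <;> omega
    unfold cnf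
    rw [cn0 2 _ _ q1, cn0 2 _ _ q2]
    rcases hl with rfl | rfl
    · have q3 : ¬ InU x y 2 (c 1) := fun hh => by
        rcases s.only 1 (by omega) hh with e | e <;> omega
      rw [cn0 2 _ _ q3]
      have := cn1' 2 (c 0) (c 1)
      omega
    · have q3 : ¬ InU x y 2 (c 0) := fun hh => by
        rcases s.only 0 (by omega) hh with e | e <;> omega
      rw [cn0 2 _ _ q3]
      have := cn1' 2 (c 1) (c 0)
      omega
  -- the lists
  obtain ⟨b0, hb0, hA4⟩ := w.last e1 ⟨_, h.lk 4 (by norm_num) (by omega)⟩ Φ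
  have hA1 := WB.card (m := m) (c := c) (f := f) (X := x) (Y := y) e1 Φ (i := 1) (r := 4) (by norm_num)
  have hA2 := WB.card (m := m) (c := c) (f := f) (X := x) (Y := y) e1 Φ (i := 2) (r := 4) (by norm_num)
  have hA3 := WB.card (m := m) (c := c) (f := f) (X := x) (Y := y) e1 Φ (i := 3) (r := 4) (by norm_num)
  have k1x := hc2 (x 1)
  have k1y := hc2 (y 1)
  have k2x := hc2 (x 2)
  have k2y := hc2 (y 2)
  have k3x := hc2 (x 3)
  have k3y := hc2 (y 3)
  have k4x := hc2 (x 4)
  have k4y := hc2 (y 4)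
  set A1 := wls G R 4 x y m c f Φ 1 with hA1d
  set A2 := wls G R 4 x y m c f Φ 2 with hA2d
  set A3 := wls G R 4 x y m c f Φ 3 with hA3d
  set A4 := wls G R 4 x y m c f Φ 4 with hA4d
  have a1 : 4 ≤ A1.card := by omega
  have a2 : 7 ≤ A2.card := by omega
  have a3 : 4 ≤ A3.card := by omega
  have a4 : 3 ≤ A4.card := by
    have := Nat.min_le_right (cnf 4 x y m c 4) 1
    omega
  -- the walks
  have walk : ∀ t1 ∈ A1, ∀ t2 ∈ A2, ∀ t3 ∈ A3, ∀ t4 ∈ A4, nr t1 t2 = true → nr t2 t3 = true →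
      nr t3 t4 = true → t1 ≠ t3 → ∃ D', Tight D' (fun j => lbl 4 x y (wk4 t1 t2 t3 t4) f (c j)) m := by
    intro t1 m1 t2 m2 t3 m3 t4 m4 n1 n2 n3 ne
    refine hwk (wk4 t1 t2 t3 t4) ⟨fun i i1 i2 => ?_, fun i i1 i2 => ?_, fun i i1 i2 hr => ?_,
      fun _ hh => absurd hh noC⟩
    · have : i = 1 ∨ i = 2 ∨ i = 3 := by omega
      rcases this with rfl | rfl | rfl
      · exact n1
      · exact n2
      · exact n3
    · have : i = 1 ∨ i = 2 ∨ i = 3 ∨ i = 4 := by omega
      rcases this with rfl | rfl | rfl | rfl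
      · exact m1
      · exact m2
      · exact m3
      · exact m4
    · have : i = 1 ∨ i = 2 := by omega
      rcases this with rfl | rfl
      · exact ne
      · exact absurd hr hrel
  -- the choice
  obtain ⟨t3, t3m, t3n⟩ : ∃ t ∈ A3, t ≠ neg b0 := by
    by_contra hcon
    push Not at hcon
    have : A3 ⊆ {neg b0} := fun t ht => mem_singleton.2 (hcon t ht)
    have := Finset.card_le_card this
    rw [Finset.card_singleton] at this
    omega
  obtain ⟨t4, t4m, t4n⟩ : ∃ t ∈ A4, nr t3 t = true := by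
    have q1 := ball_inter_card t3 b0 t3n
    have q2 := ball_card b0
    have q3 : A4.card + (ball t3 ∩ ball b0).card ≤ (A4 ∩ (ball t3 ∩ ball b0)).card + 4 := by
      have u1 := Finset.card_union_add_card_inter A4 (ball t3 ∩ ball b0)
      have u2 : A4 ∪ (ball t3 ∩ ball b0) ⊆ ball b0 :=
        Finset.union_subset hb0 Finset.inter_subset_right
      have u3 := Finset.card_le_card u2
      omega
    obtain ⟨t, ht⟩ := Finset.card_pos.1 (show 0 < (A4 ∩ (ball t3 ∩ ball b0)).card by omega)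
    rw [mem_inter, mem_inter] at ht
    exact ⟨t, ht.1, mem_ball.1 ht.2.1⟩
  obtain ⟨t1, t1m, t1', t1m', hne⟩ : ∃ t ∈ A1.erase t3 |>.erase (neg t3), ∃ t' ∈ A1.erase t3 |>.erase
      (neg t3), t ≠ t' := by
    have q1 := Finset.pred_card_le_card_erase (s := A1) (a := t3)
    have q2 := Finset.pred_card_le_card_erase (s := A1.erase t3) (a := neg t3)
    exact Finset.one_lt_card.1 (by omega)
  rw [mem_erase, mem_erase] at t1m t1m'
  obtain ⟨a, ha⟩ := exists_big a2
  obtain ⟨hA, hAx⟩ := forkL (f := f) w.ch hl (by norm_num) (by norm_num) s.inl outL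
  obtain ⟨hB, hBx⟩ := forkR (f := f) w.ch hl' (by norm_num) le_rfl s'.inl outR
  have main : ∀ t1, t1 ∈ A1 → t1 ≠ t3 → t1 ≠ neg t3 → ∃ t2 D', a = add t2 (add t1 t3) ∧
      Tight D' (fun j => lbl 4 x y (wk4 t1 t2 t3 t4) f (c j)) m := by
    intro t1 m1 ne1 ne2
    obtain ⟨t2, n1, n2, n3⟩ := two_in t1 t3 a (fun e => ne2 (by rw [e]; exact (H3DA.neg_neg _).symm))
    obtain ⟨D', hT⟩ := walk t1 m1 t2 (ha t2 n3) t3 t3m t4 t4m (nr_symm n1) n2 t4n ne1
    refine ⟨t2, D', ?_, hT⟩
    have key := one_fin t1 t3 t2 (neg a) n1 n2 (by rw [H3DA.neg_neg]; exact n3)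
      (fun t' c1 c2 c3 => ?_)
    · rw [H3DA.neg_neg] at key
      exact key
    · rw [H3DA.neg_neg] at c3
      obtain ⟨D'', hT'⟩ := walk t1 m1 t' (ha t' c3) t3 t3m t4 t4m (nr_symm c1) c2 t4n ne1
      have := win_one hG hcat (by omega) w.ch (v := 2) (by norm_num) (by norm_num)
        (mu := wk4 t1 t' t3 t4) (mu' := wk4 t1 t2 t3 t4) (fun i i1 i2 i3 => ?_) ⟨l, s.l1, s.inl⟩ ?_
        hT' hT
      · exact this
      · have : i = 1 ∨ i = 3 ∨ i = 4 := by omega
        rcases this with rfl | rfl | rfl <;> rfl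
      · rintro ⟨-, h3 | h3⟩
        · rcases s.only _ (by omega) h3 with e | e <;> omega
        · rcases s.only _ (by omega) h3 with e | e <;> omega
  obtain ⟨t2, D1, q1, hT1⟩ := main t1 t1m.2.2 t1m.2.1 t1m.1
  obtain ⟨t2', D2, q2, hT2⟩ := main t1' t1m'.2.2 t1m'.2.1 t1m'.1
  have sum : ∀ mu D, Tight D (fun j => lbl 4 x y mu f (c j)) m →
      add (mu 4) hB = neg (add (mu 2) hA) := by
    intro mu D hT
    rw [← (hAx mu).2, ← (hBx mu).2]
    have := tight_sums hT
    rw [if_neg (by omega)] at this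
    exact this
  have r1 : add t4 hB = neg (add t2 hA) := sum _ _ hT1
  have r2 : add t4 hB = neg (add t2' hA) := sum _ _ hT2
  have k : ∀ a b c' : Q, neg (add a c') = neg (add b c') → a = b := by decide +kernel
  have e := k _ _ _ (r1.symm.trans r2)
  subst e
  exact hne (same_four a t1 t1' t3 t2 q1 q2)

/-- **The exceptional structure next to the left end of an open chain.** -/
theorem sfuf (hG : ClassC G R) (hc : Crit G R) (h : Chn G R k x y) (hk : 7 ≤ k)
    (e1 : ∀ w, ¬ Lk G R (x 1) w) (e2 : ∀ w, ¬ Lk G R (y k) w) (hcat : Cat G R m z c)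
    (hs : FStar G R x y m c 2) (hun : ∀ j ≤ m + 1, c j ≠ x 3 ∧ c j ≠ y 3)
    (h1 : (∃ j ≤ m + 1, c j = x 1) ∨ ∃ j ≤ m + 1, c j = y 1) : False := by
  obtain ⟨l, g, l', g', s, s', m3, m11, hp, hgi, -⟩ := hs
  have h1' : ∃ j ≤ m + 1, InU x y 1 (c j) := by
    rcases h1 with ⟨j, hj, e⟩ | ⟨j, hj, e⟩
    · exact ⟨j, hj, Or.inl e⟩
    · exact ⟨j, hj, Or.inr e⟩
  rcases hp with ⟨pl, pl'⟩ | ⟨pl, pl'⟩
  · exact sfuf_left hG hc hcat (by omega) h hk e1 e2 s s' (by omega) pl pl' (by omega) (by omega) hun h1'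
  · obtain ⟨j, hj, hin⟩ := h1'
    refine sfuf_left hG hc (cat_rev hcat) (by omega) h hk e1 e2 (s.rev (by omega)) (s'.rev (by omega))
      (by omega) ?_ ?_ (by omega) (by omega) (fun j hj => hun _ (by omega))
      ⟨m + 1 - j, by omega, ?_⟩
    · rw [pos_rev (by omega) s.l1]; omega
    · rw [pos_rev (by omega) s'.l1]; omega
    · show InU x y 1 (c (m + 1 - (m + 1 - j)))
      rw [show m + 1 - (m + 1 - j) = j by omega]; exact hin

end CLB.H45
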