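import Pool.Agent.Helper95_CLB.UStar

/-!
Finite facts about labels, two full units around an unseen unit.
-/

set_option autoImplicit false

namespace CLB.H45

open H3DA (Q neg nr)
open CLB.H95

/-- The common value of the steps of two types. -/
def dS (D D' : Ty) : Q := if uD D = uD D' ∨ uD D = vD D' then uD D else vD D

/-- The change along two unchanged steps. -/
def om (D D' : Ty) : Q := add (dS D D') (dS (co D) (co D'))

lemma stepU' : ∀ (D D' : Ty) (a b : Q), (D.1 != D'.1 && stp D (neg a) b && stp D' (neg a) b) = true →
    add a b = neg (dS D D') := by decide +kernel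

lemma stepU (D D' : Ty) (h : D.1 ≠ D'.1) (a b : Q) (h1 : stp D (neg a) b = true)
    (h2 : stp D' (neg a) b = true) : add a b = neg (dS D D') :=
  stepU' D D' a b (by rw [h1, h2]; simpa using h)

lemma stepC0 : ∀ (D D' : Ty) (a b : Q), (D.1 != D'.1 && stp D (neg a) b &&
    stp D' (neg (add a (add (wD D) (wD D')))) b) = true →
    add a b = neg (add (dS D D') (wD D)) := by decide +kernel

lemma stepC (D D' : Ty) (h : D.1 ≠ D'.1) (a b : Q) (h1 : stp D (neg a) b = true)
    (h2 : stp D' (neg (add a (add (wD D) (wD D')))) b = true) :
    add a b = neg (add (dS D D') (wD D)) :=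
  stepC0 D D' a b (by rw [h1, h2]; simpa using h)

lemma stepC'0 : ∀ (D D' : Ty) (a b : Q), (D.1 != D'.1 && stp D (neg a) b &&
    stp D' (neg a) (add b (add (wD D) (wD D')))) = true →
    add a b = neg (add (dS D D') (wD D)) := by decide +kernel

lemma stepC' (D D' : Ty) (h : D.1 ≠ D'.1) (a b : Q) (h1 : stp D (neg a) b = true)
    (h2 : stp D' (neg a) (add b (add (wD D) (wD D'))) = true) :
    add a b = neg (add (dS D D') (wD D)) :=
  stepC'0 D D' a b (by rw [h1, h2]; simpa using h)

lemma co_ax : ∀ D D' : Ty, D.1 ≠ D'.1 → (co D).1 ≠ (co D').1 := by decide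

lemma co_sum : ∀ D D' : Ty, add (wD (co D)) (wD (co D')) = add (wD D) (wD D') := by decide

lemma om_ne : ∀ D D' : Ty, D.1 ≠ D'.1 → om D D' ≠ (false, false, false) ∧
    om D D' ≠ (true, true, true) := by decide +kernel

/-- unchanged middle port -/
lemma two_u : ∀ D D' : Ty, ∀ a b e : Q, add a b = neg (dS (co D) (co D')) →
    add b e = neg (dS D D') → e = add a (om D D') := by
  have key : ∀ a b e p q : Q, add a b = neg p → add b e = neg q → e = add a (add q p) := by
    intro a b e p q h1 h2
    have k1 : ∀ a b p : Q, add a b = neg p → b = add a (neg p) := by decide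
    have k2 : ∀ a p q : Q, add (add a (neg p)) (neg q) = add a (add q p) := by decide +kernel
    rw [k1 _ _ _ h2, k1 _ _ _ h1]
    exact k2 a p q
  intro D D' a b e h1 h2
  exact key _ _ _ _ _ h1 h2

/-- changed middle port -/
lemma two_c : ∀ D D' : Ty, ∀ a b e : Q, add a b = neg (add (dS (co D) (co D')) (wD (co D))) →
    add b e = neg (add (dS D D') (wD D)) → e = neg (add a (om D D')) := by
  have key : ∀ a b e p q u v : Q, add u v = (true, true, true) → add a b = neg (add p u) →
      add b e = neg (add q v) → e = neg (add a (add q p)) := by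
    intro a b e p q u v h0 h1 h2
    have k1 : ∀ a b p : Q, add a b = neg p → b = add a (neg p) := by decide
    have k0 : ∀ u v : Q, add u v = (true, true, true) → v = neg u := by decide
    have k2 : ∀ a p q u : Q, add (add a (neg (add p u))) (neg (add q (neg u))) =
        neg (add a (add q p)) := by decide +kernel
    rw [k1 _ _ _ h2, k1 _ _ _ h1, k0 _ _ h0]
    exact k2 a p q u
  intro D D' a b e h1 h2
  exact key _ _ _ _ _ _ _ (by rw [add_comm']; exact wD_co D) h1 h2

/-- From a changed port to the next changed port. -/
lemma run_cc : ∀ D D' : Ty, ∀ a b e h : Q, add a b = neg (add (dS D D') (wD D)) →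
    add e h = neg (add (dS (co D) (co D')) (wD (co D))) →
    h = neg (add (add a (om D D')) (add b e)) := by
  have key : ∀ a b e h p q u v : Q, add u v = (true, true, true) → add a b = neg (add p u) →
      add e h = neg (add q v) → h = neg (add (add a (add p q)) (add b e)) := by
    intro a b e h p q u v h0 h1 h2
    have k1 : ∀ a b p : Q, add a b = neg p → b = add a (neg p) := by decide
    have k0 : ∀ u v : Q, add u v = (true, true, true) → v = neg u := by decide
    have k2 : ∀ a e p q u : Q, add e (neg (add q (neg u))) =
        neg (add (add a (add p q)) (add (add a (neg (add p u))) e)) := by decide +kernel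
    rw [k1 _ _ _ h2, k1 _ _ _ h1, k0 _ _ h0]
    exact k2 a e p q u
  intro D D' a b e h h1 h2
  exact key _ _ _ _ _ _ _ _ (wD_co D) h1 h2

/-- Two labels in the intersection of two balls. -/
lemma two_in : ∀ A B a : Q, B ≠ neg A → ∃ t, nr t A = true ∧ nr t B = true ∧ t ≠ a := by
  decide +kernel

lemma near_ne : ∀ A B t : Q, nr t A = true → nr t B = true → B ≠ neg A := by decide +kernel

/-- Paths of odd length: the walls are antipodal. -/
lemma fuf_sum : ∀ L W t u r hA hB : Q, neg hA = add t (add L u) → neg hB = add r (add u W) →
    add r hB = neg (add t hA) → W = neg L := by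
  have k1 : ∀ a b : Q, neg a = b → a = neg b := by decide
  have k2 : ∀ L W t u r : Q, add r (neg (add r (add u W))) = neg (add t (neg (add t (add L u)))) →
      W = neg L := by decide +kernel
  intro L W t u r hA hB e1 e2 e3
  rw [k1 _ _ e1, k1 _ _ e2] at e3
  exact k2 L W t u r e3

/-- The type of a walk. -/
lemma fuf_type : ∀ L t u hA : Q, neg hA = add t (add L u) → add t hA = neg (add L u) := by
  decide +kernel

lemma fuf_shift : ∀ L t u t' u' hA : Q, neg hA = add t (add L u) → neg hA = add t' (add L u') →
    t' = add t (add u u') := by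
  have k1 : ∀ L t u t' u' : Q, add t (add L u) = add t' (add L u') → t' = add t (add u u') := by
    decide +kernel
  intro L t u t' u' hA h1 h2
  exact k1 L t u t' u' (h1.symm.trans h2)

/-- The main finite fact: the axes differ, and the sum of the labels of the two full units. -/
lemma fuf_fin' : ∀ (L : Q) (D D' : Ty) (t : Q), (D != D' && nr t L &&
    nr t (add L (neg (wD D))) &&
    nr (add t (add (wD D) (wD D'))) L &&
    nr (add t (add (wD D) (wD D'))) (add L (neg (wD D')))) = true →
    ∀ r : Q, (nr (add L (neg (wD D))) r && nr r (neg L) &&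
    nr (add L (neg (wD D'))) (add r (add (wD D) (wD D'))) &&
    nr (add r (add (wD D) (wD D'))) (neg L)) = true →
    D.1 ≠ D'.1 ∧ add t r = om D D' := by decide +kernel

end CLB.H45
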