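import Pool.Agent.Helper80_DA.Le4B
import Pool.Agent.Helper45_DA.Dec2

/-!
Finite facts about labels, two leaves of one fork in the window.
-/

set_option autoImplicit false

namespace CLB.H45

open H3DA (Q neg nr)
open CLB.H95
open CLB.H80.L4 (all8 any8 all8_iff any8_iff)

lemma c1_chk : (all8 fun u => all8 fun t => !(nr t u) || (all8 fun L => !(nr t L) || (all8 fun r =>
    !(nr u r) || (all8 fun W => !(nr r W) || ([false, true].all fun b => (t == neg (add r (b, b, b))) ||
    (any8 fun t' => any8 fun r' => nr t' L && nr t' u && nr u r' && nr r' W &&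
      !(t' == neg (add r' (b, b, b))) && !(t' == t && r' == r))))))) = true := by decide +kernel

/-- Another walk without the conflict. -/
lemma c1_fin (b : Bool) (L W t u r : Q) (h1 : nr t L = true) (h2 : nr t u = true)
    (h3 : nr u r = true) (h4 : nr r W = true) (h5 : t ≠ neg (add r (b, b, b))) :
    ∃ t' r', nr t' L = true ∧ nr t' u = true ∧ nr u r' = true ∧ nr r' W = true ∧
      t' ≠ neg (add r' (b, b, b)) ∧ ¬ (t' = t ∧ r' = r) := by
  have a1 := all8_iff.1 (all8_iff.1 c1_chk u) t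
  rw [h2, Bool.not_true, Bool.false_or, all8_iff] at a1
  have a2 := a1 L
  rw [h1, Bool.not_true, Bool.false_or, all8_iff] at a2
  have a3 := a2 r
  rw [h3, Bool.not_true, Bool.false_or, all8_iff] at a3
  have a4 := a3 W
  rw [h4, Bool.not_true, Bool.false_or, List.all_eq_true] at a4
  have a5 := a4 b (by cases b <;> simp)
  rw [Bool.or_eq_true, beq_iff_eq] at a5
  rcases a5 with a5 | a5
  · exact absurd a5 h5
  obtain ⟨t', a6⟩ := any8_iff.1 a5
  obtain ⟨r', a7⟩ := any8_iff.1 a6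
  simp only [Bool.and_eq_true, Bool.not_eq_true', beq_eq_false_iff_ne, Bool.and_eq_false_iff] at a7
  obtain ⟨⟨⟨⟨⟨b1, b2⟩, b3⟩, b4⟩, b5⟩, b6⟩ := a7
  refine ⟨t', r', b1, b2, b3, b4, b5, fun ⟨e1, e2⟩ => ?_⟩
  rcases b6 with b6 | b6
  · exact b6 e1
  · exact b6 e2

lemma c5_chk : (all8 fun u => all8 fun t => !(nr t u) || (all8 fun L => !(nr t L) || (all8 fun r =>
    !(nr u r) || (all8 fun W => !(nr r W) || ([false, true].all fun b => (t == neg (add r (b, b, b))) ||
    (t == add r (b, b, b)) ||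
    (any8 fun t' => any8 fun r' => nr t' L && nr t' u && nr u r' && nr r' W &&
      !(t' == neg (add r' (b, b, b))) && !(t' == add r (b, b, b)) && !(r' == r))))))) = true := by
  decide +kernel

lemma c5_fin (b : Bool) (L W t u r : Q) (h1 : nr t L = true) (h2 : nr t u = true)
    (h3 : nr u r = true) (h4 : nr r W = true) (h5 : t ≠ neg (add r (b, b, b)))
    (h6 : t ≠ add r (b, b, b)) :
    ∃ t' r', nr t' L = true ∧ nr t' u = true ∧ nr u r' = true ∧ nr r' W = true ∧
      t' ≠ neg (add r' (b, b, b)) ∧ t' ≠ add r (b, b, b) ∧ r' ≠ r := by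
  have a1 := all8_iff.1 (all8_iff.1 c5_chk u) t
  rw [h2, Bool.not_true, Bool.false_or, all8_iff] at a1
  have a2 := a1 L
  rw [h1, Bool.not_true, Bool.false_or, all8_iff] at a2
  have a3 := a2 r
  rw [h3, Bool.not_true, Bool.false_or, all8_iff] at a3
  have a4 := a3 W
  rw [h4, Bool.not_true, Bool.false_or, List.all_eq_true] at a4
  have a5 := a4 b (by cases b <;> simp)
  rw [Bool.or_eq_true, Bool.or_eq_true, beq_iff_eq, beq_iff_eq] at a5
  rcases a5 with (a5 | a5) | a5
  · exact absurd a5 h5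
  · exact absurd a5 h6
  obtain ⟨t', a6⟩ := any8_iff.1 a5
  obtain ⟨r', a7⟩ := any8_iff.1 a6
  simp only [Bool.and_eq_true, Bool.not_eq_true', beq_eq_false_iff_ne] at a7
  obtain ⟨⟨⟨⟨⟨⟨b1, b2⟩, b3⟩, b4⟩, b5⟩, b6⟩, b7⟩ := a7
  exact ⟨t', r', b1, b2, b3, b4, b5, b6, b7⟩

end CLB.H45
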