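import Pool.Agent.Helper45_DA.Dec2
import Pool.Agent.Helper95_CLB.UStarW

/-!
Two tight labels of one caterpillar of odd length which differ at four ports.
-/

set_option autoImplicit false

namespace CLB.H45

open H3DA (Q neg nr)
open CLB.H95

/-- `w` for odd `n`. -/
def par (n : ℕ) (w : Q) : Q := if n % 2 = 1 then w else (false, false, false)

lemma altT_even (D : Ty) {i : ℕ} (hi : i % 2 = 0) : altT D i = co D := by
  unfold altT; rw [if_neg (by omega)]

lemma altT_odd (D : Ty) {i : ℕ} (hi : i % 2 = 1) : altT D i = D := by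
  unfold altT; rw [if_pos hi]

section

variable {m : ℕ} {D D' : Ty} {s s' : ℕ → Q}

lemma run_u (hT : Tight D s m) (hT' : Tight D' s' m) (hax : D.1 ≠ D'.1) {q : ℕ} (h1 : 1 ≤ q)
    (h2 : q % 2 = 0) (h3 : q + 2 ≤ m) (e1 : s' q = s q) (e2 : s' (q + 1) = s (q + 1))
    (e3 : s' (q + 2) = s (q + 2)) : s (q + 2) = add (s q) (om D D') := by
  have a1 := hT.2.1 q h1 (by omega)
  have a2 := hT'.2.1 q h1 (by omega)
  have b1 := hT.2.1 (q + 1) (by omega) (by omega)
  have b2 := hT'.2.1 (q + 1) (by omega) (by omega)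
  rw [altT_even _ h2] at a1 a2
  rw [altT_odd _ (by omega)] at b1 b2
  rw [e1, e2] at a2
  rw [e2, show q + 1 + 1 = q + 2 by omega, e3] at b2
  exact two_u D D' _ _ _ (stepU _ _ (co_ax _ _ hax) _ _ a1 a2) (stepU _ _ hax _ _ b1 b2)

lemma run_c (hT : Tight D s m) (hT' : Tight D' s' m) (hax : D.1 ≠ D'.1) {q : ℕ} (h1 : 1 ≤ q)
    (h2 : q % 2 = 0) (h3 : q + 2 ≤ m) (e1 : s' q = s q)
    (e2 : s' (q + 1) = add (s (q + 1)) (add (wD D) (wD D')))
    (e3 : s' (q + 2) = s (q + 2)) : s (q + 2) = neg (add (s q) (om D D')) := by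
  have a1 := hT.2.1 q h1 (by omega)
  have a2 := hT'.2.1 q h1 (by omega)
  have b1 := hT.2.1 (q + 1) (by omega) (by omega)
  have b2 := hT'.2.1 (q + 1) (by omega) (by omega)
  rw [altT_even _ h2] at a1 a2
  rw [altT_odd _ (by omega)] at b1 b2
  rw [e1, e2, ← co_sum] at a2
  rw [e2, show q + 1 + 1 = q + 2 by omega, e3] at b2
  exact two_c D D' _ _ _ (stepC' _ _ (co_ax _ _ hax) _ _ a1 a2) (stepC _ _ hax _ _ b1 b2)

lemma par_succ (n : ℕ) (w : Q) : add (par n w) w = par (n + 1) w := by
  unfold par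
  by_cases h : n % 2 = 1
  · rw [if_pos h, if_neg (by omega), add_self']
  · rw [if_neg h, if_pos (by omega), zero_add']

/-- A run of unchanged ports. -/
lemma run (hT : Tight D s m) (hT' : Tight D' s' m) (hax : D.1 ≠ D'.1) {p : ℕ} (h1 : 1 ≤ p)
    (h2 : p % 2 = 0) (n : ℕ) (h3 : p + 2 * n ≤ m)
    (hu : ∀ j, p ≤ j → j ≤ p + 2 * n → s' j = s j) :
    s (p + 2 * n) = add (s p) (par n (om D D')) := by
  induction n with
  | zero => unfold par; simp [add_zero']
  | succ n ih =>
    have := run_u hT hT' hax (q := p + 2 * n) (by omega) (by omega) (by omega)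
      (hu _ (by omega) (by omega)) (hu _ (by omega) (by omega)) (hu _ (by omega) (by omega))
    rw [show p + 2 * (n + 1) = p + 2 * n + 2 by omega, this,
      ih (by omega) (fun j j1 j2 => hu j j1 (by omega)), add_assoc', par_succ]

lemma run' (hT : Tight D s m) (hT' : Tight D' s' m) (hax : D.1 ≠ D'.1) {p q : ℕ} (h1 : 1 ≤ p)
    (h2 : p % 2 = 0) (hq : q % 2 = 0) (hpq : p ≤ q) (h3 : q ≤ m)
    (hu : ∀ j, p ≤ j → j ≤ q → s' j = s j) :
    s q = add (s p) (par ((q - p) / 2) (om D D')) := by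
  have := run hT hT' hax h1 h2 ((q - p) / 2) (by omega) (fun j j1 j2 => hu j j1 (by omega))
  rwa [show p + 2 * ((q - p) / 2) = q by omega] at this

/-- **Two types.** -/
theorem two_tight {g g' : ℕ} (hT : Tight D s m) (hT' : Tight D' s' m)
    (hax : D.1 ≠ D'.1)
    (hc : ∀ j, 1 ≤ j → j ≤ m → (j = 1 ∨ j = g ∨ j = g' ∨ j = m) →
      s' j = add (s j) (add (wD D) (wD D')))
    (hu : ∀ j, 1 ≤ j → j ≤ m → ¬ (j = 1 ∨ j = g ∨ j = g' ∨ j = m) → s' j = s j)
    (g1 : g % 4 = 1) (g2 : 5 ≤ g) (g3 : g + 2 ≤ m) (g1' : g' % 4 = m % 4) (g2' : 3 ≤ g')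
    (g3' : g' + 4 ≤ m) (hm : m % 2 = 1) (hgg : g ≠ g') (mate : s g = neg (s 1)) :
    g < g' ∧ (m % 4 = 3 → s g' = neg (add (s g) (om D D'))) ∧ (m % 4 = 1 → s g' = neg (s g)) := by
  -- the step from a changed port to the right, at odd positions
  have stR : ∀ j, j % 2 = 1 → j + 1 ≤ m → (j = 1 ∨ j = g ∨ j = g' ∨ j = m) →
      ¬ (j + 1 = 1 ∨ j + 1 = g ∨ j + 1 = g' ∨ j + 1 = m) →
      add (s j) (s (j + 1)) = neg (add (dS D D') (wD D)) := by
    intro j j1 j2 j3 j4
    have b1 := hT.2.1 j (by omega) (by omega)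
    have b2 := hT'.2.1 j (by omega) (by omega)
    rw [altT_odd _ j1] at b1 b2
    rw [hc j (by omega) (by omega) j3, hu (j + 1) (by omega) (by omega) j4] at b2
    exact stepC _ _ hax _ _ b1 b2
  have stL : ∀ j, j % 2 = 0 → 1 ≤ j → j + 1 ≤ m → ¬ (j = 1 ∨ j = g ∨ j = g' ∨ j = m) →
      (j + 1 = 1 ∨ j + 1 = g ∨ j + 1 = g' ∨ j + 1 = m) →
      add (s j) (s (j + 1)) = neg (add (dS (co D) (co D')) (wD (co D))) := by
    intro j j1 j0 j2 j3 j4
    have b1 := hT.2.1 j (by omega) (by omega)
    have b2 := hT'.2.1 j (by omega) (by omega)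
    rw [altT_even _ j1] at b1 b2
    rw [hu j (by omega) (by omega) j3, hc (j + 1) (by omega) (by omega) j4, ← co_sum] at b2
    exact stepC' _ _ (co_ax _ _ hax) _ _ b1 b2
  have hlt : g < g' := by
    by_contra hcon
    have hlt : g' < g := by omega
    have c1 := stR 1 (by norm_num) (by omega) (by omega) (by omega)
    have c2 := stL (g - 1) (by omega) (by omega) (by omega) (by omega) (by omega)
    rw [show g - 1 + 1 = g by omega] at c2
    have c3 := run_cc D D' _ _ _ _ c1 c2
    have r1 := run' hT hT' hax (p := 2) (q := g' - 1) (by omega) (by omega) (by omega) (by omega)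
      (by omega) (fun j j1 j2 => hu j (by omega) (by omega) (by omega))
    have r2 := run_c hT hT' hax (q := g' - 1) (by omega) (by omega) (by omega)
      (hu _ (by omega) (by omega) (by omega)) (hc _ (by omega) (by omega) (by omega))
      (hu _ (by omega) (by omega) (by omega))
    have r3 := run' hT hT' hax (p := g' - 1 + 2) (q := g - 1) (by omega) (by omega) (by omega)
      (by omega) (by omega) (fun j j1 j2 => hu j (by omega) (by omega) (by omega))
    rw [r3, r2, r1, mate] at c3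
    have e : (par ((g' - 1 - 2) / 2) (om D D') = par ((g - 1 - (g' - 1 + 2)) / 2) (om D D')) := by
      unfold par
      by_cases h : (g' - 1 - 2) / 2 % 2 = 1
      · rw [if_pos h, if_pos (by omega)]
      · rw [if_neg h, if_neg (by omega)]
    rw [e] at c3
    have key : ∀ a b w p : Q, neg a ≠ neg (add (add a w) (add b (add (neg (add (add b p) w)) p))) := by
      decide +kernel
    exact key _ _ _ _ c3
  refine ⟨hlt, ?_⟩
  have c1 := stR g (by omega) (by omega) (by omega) (by omega)
  have c2 := stL (g' - 1) (by omega) (by omega) (by omega) (by omega) (by omega)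
  rw [show g' - 1 + 1 = g' by omega] at c2
  have c3 := run_cc D D' _ _ _ _ c1 c2
  have r1 := run' hT hT' hax (p := g + 1) (q := g' - 1) (by omega) (by omega) (by omega) (by omega)
    (by omega) (fun j j1 j2 => hu j (by omega) (by omega) (by omega))
  rw [r1] at c3
  refine ⟨fun h3 => ?_, fun h1 => ?_⟩
  · rw [show par ((g' - 1 - (g + 1)) / 2) (om D D') = (false, false, false) by
      unfold par; rw [if_neg (by omega)]] at c3
    rw [c3]
    have key : ∀ a b w : Q, neg (add (add a w) (add b (add b (false, false, false)))) =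
        neg (add a w) := by decide +kernel
    exact key _ _ _
  · rw [show par ((g' - 1 - (g + 1)) / 2) (om D D') = om D D' by
      unfold par; rw [if_pos (by omega)]] at c3
    rw [c3]
    have key : ∀ a b w : Q, neg (add (add a w) (add b (add b w))) = neg a := by decide +kernel
    exact key _ _ _

end

end CLB.H45
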