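import Pool.Agent.Helper45_DA.FList
import Pool.Agent.Helper45_DA.TwoT

/-!
Two full units around an unseen unit: the leaves at different ends.
-/

set_option autoImplicit false
set_option linter.unusedSectionVars false

namespace CLB.H45

open Finset Classical
open H3DA (Q neg nr)
open CLB.H3 (CExt Cat IsTwo Fits UPath he_of_unc cat_structure chn_side KTight exists_ktight no_cext
  Leaf cext_or fits_other TB tb_inner1 tb_inner2 tb_leaf2 known_right known_left pos tight_swL
  tight_swR)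
open CLB.H95

variable {V : Type*} {G : SimpleGraph V} {R : V → Bool} [Fintype V] {k r : ℕ} {x y X Y : ℕ → V}
  {m : ℕ} {z c : ℕ → V} {f : V → Q} {cur : ℕ → Q} {L W : Q}

/-- The exchange of the ports of the forks. -/
lemma exists_tau {m l l' : ℕ} (hm : 6 ≤ m) (hl : l = 0 ∨ l = 1) (hl' : l' = m ∨ l' = m + 1) :
    ∃ τ : ℕ → ℕ, (∀ (D : Ty) (s : ℕ → Q), Tight D s m → Tight D (fun j => s (τ j)) m) ∧ τ 1 = l ∧
      τ m = l' ∧ ∀ j, 2 ≤ j → j < m → τ j = j := by
  have hL1 : swL 1 = 0 := by unfold swL; simp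
  have hLj : ∀ j, 2 ≤ j → swL j = j := fun j hj => swL_of (by omega)
  have hRm : swR m m = m + 1 := by unfold swR; rw [if_pos rfl]
  have hRj : ∀ j, j < m → swR m j = j := fun j hj => by
    unfold swR; rw [if_neg (by omega), if_neg (by omega)]
  rcases hl with rfl | rfl <;> rcases hl' with rfl | rfl
  · exact ⟨swL, fun D s h => tight_swL (by omega) h, hL1, hLj _ (by omega), fun j h1 _ => hLj j h1⟩
  · refine ⟨fun j => swL (swR m j), fun D s h => ?_, ?_, ?_, fun j h1 h2 => ?_⟩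
    · exact tight_swR (by omega) (tight_swL (by omega) h)
    · show swL (swR m 1) = 0
      rw [hRj 1 (by omega), hL1]
    · show swL (swR m m) = m + 1
      rw [hRm, hLj _ (by omega)]
    · show swL (swR m j) = j
      rw [hRj j h2, hLj j h1]
  · exact ⟨id, fun D s h => h, rfl, rfl, fun j _ _ => rfl⟩
  · exact ⟨swR m, fun D s h => tight_swR (by omega) h, hRj 1 (by omega), hRm, fun j _ h2 => hRj j h2⟩

lemma delta_fin : ∀ L u u' : Q, add (neg (add L u)) (neg (add L u')) = add u u' := by decide +kernel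

lemma back_fin : ∀ L u : Q, add L (neg (neg (add L u))) = u := by decide +kernel

lemma letters_fin : ∀ (b b' : Bool) (t q : Q), add q (b', b', b') =
    neg (add (add t (b, b, b)) (add t q)) → b ≠ b' := by decide +kernel

lemma letters_fin' : ∀ (b b' : Bool) (t q : Q), add q (b', b', b') = neg (add t (b, b, b)) →
    add t q = (false, false, false) ∨ add t q = (true, true, true) := by decide +kernel

theorem fuf_AB (w : FW G R X Y m z c f cur L W) (hm : 6 ≤ m) {l g l' g' : ℕ}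
    (s : Shp G R X Y m c 1 l g) (s' : Shp G R X Y m c 3 l' g') (pl : pos m l = 1)
    (pl' : pos m l' = m) (pg : pos m g ≠ m) (pg' : pos m g' ≠ 1) :
    m % 4 = 3 ∧ g < g' ∧ 5 ≤ g ∧ g' + 4 ≤ m ∧
      ((c g = X 1 ∧ c g' = Y 3) ∨ (c g = Y 1 ∧ c g' = X 3)) := by
  have hG := w.w.hG
  have hl := s.posl_of hm pl
  have hl' := s'.posr_of hm pl'
  have hgg := w.ne13 s.ing s'.ing
  have hmod := s.mod
  have hfar := s.far
  have hmod' := s'.mod
  have hfar' := s'.far
  rw [pl] at hmod hfar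
  rw [pl'] at hmod' hfar'
  have par := port_par w.w.ch w.w.cat s.l1 s'.l1 (u := 1) (v := 3) ⟨by omega, by omega⟩
    ⟨by omega, by omega⟩ s.inl s'.inl
  rw [pl, pl'] at par
  have b1 := pos_mem (show 1 ≤ m by omega) s.g1
  have b2 := pos_mem (show 1 ≤ m by omega) s'.g1
  obtain ⟨eg, g2, g3⟩ := g_inner s.g1 (by omega) pg
  obtain ⟨eg', g2', g3'⟩ := g_inner s'.g1 pg' (by omega)
  rw [eg] at hmod hfar
  rw [eg'] at hmod' hfar'
  have out := w.out s s'
  have out' : ∀ j ≤ m + 1, InC 3 X Y (c j) → j = l ∨ j = g ∨ j = l' ∨ j = g' := by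
    intro j hj hin
    by_contra hcon
    push Not at hcon
    exact out j hj hcon.1 hcon.2.1 hcon.2.2.1 hcon.2.2.2 hin
  have hpos : ∀ i j, i ≤ m + 1 → j ≤ m + 1 → InC 3 X Y (c i) → InC 3 X Y (c j) →
      pos m i = pos m j → i = j := by
    intro i j hi hj h1 h2 he
    rcases out' i hi h1 with rfl | rfl | rfl | rfl <;> rcases out' j hj h2 with rfl | rfl | rfl | rfl <;>
      omega
  obtain ⟨A, hA4, hAw⟩ := w.list hpos
  obtain ⟨hA, hAx⟩ := forkL (f := f) w.w.ch hl le_rfl (by norm_num) s.inl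
    (out _ (by omega) (by omega) (by omega) (by omega) (by omega))
  obtain ⟨hB, hBx⟩ := forkR (f := f) w.w.ch hl' (by norm_num) le_rfl s'.inl
    (out _ (by omega) (by omega) (by omega) (by omega) (by omega))
  -- admissible labels of the middle unit
  let OKu : Q → Prop := fun u => ∀ t q : Q, nr t L = true → nr t u = true → nr u q = true →
    nr q W = true → t ≠ neg hA → q ≠ neg hB →
    ∃ D, Tight D (fun j => lbl 3 X Y (wk3 t u q) f (c j)) m
  have okc : OKu (cur 2) := fun t q a1 a2 a3 a4 a5 a6 =>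
    w.walk a1 a2 a3 a4 ⟨(hAx _).1.2 a5, (hBx _).1.2 a6⟩
  have okA : ∀ u ∈ A, OKu u := fun u hu t q a1 a2 a3 a4 a5 a6 =>
    hAw t u q hu a1 a2 a3 a4 ⟨(hAx _).1.2 a5, (hBx _).1.2 a6⟩
  have hU : ∀ u, OKu u → ∀ t q : Q, nr t L = true → nr t u = true → nr u q = true →
      nr q W = true → t ≠ neg hA → q ≠ neg hB →
      neg hA = add t (add L u) ∧ neg hB = add q (add u W) := by
    intro u hu t q a1 a2 a3 a4 a5 a6
    obtain ⟨D, hT⟩ := hu t q a1 a2 a3 a4 a5 a6
    constructor
    · refine one_fin L u t hA a1 a2 a5 fun t' c1 c2 c3 => ?_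
      obtain ⟨D', hT'⟩ := hu t' q c1 c2 a3 a4 c3 a6
      have := win_one hG w.w.cat (by omega) w.w.ch (v := 1) le_rfl (by norm_num) (mu := wk3 t' u q)
        (mu' := wk3 t u q) (fun i i1 i2 i3 => ?_) ⟨l, s.l1, s.inl⟩ ?_ hT' hT
      · exact this
      · have : i = 2 ∨ i = 3 := by omega
        rcases this with rfl | rfl <;> rfl
      · rintro ⟨-, h3 | h3⟩
        · rcases s.only _ (by omega) h3 with e | e <;> omega
        · rcases s.only _ (by omega) h3 with e | e <;> omega
    · refine one_fin u W q hB (nr_symm a3) a4 a6 fun t' c1 c2 c3 => ?_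
      obtain ⟨D', hT'⟩ := hu t t' a1 a2 (nr_symm c1) c2 a5 c3
      have := win_one hG w.w.cat (by omega) w.w.ch (v := 3) (by norm_num) le_rfl (mu := wk3 t u t')
        (mu' := wk3 t u q) (fun i i1 i2 i3 => ?_) ⟨l', s'.l1, s'.inl⟩ ?_ hT' hT
      · exact this
      · have : i = 1 ∨ i = 2 := by omega
        rcases this with rfl | rfl <;> rfl
      · rintro ⟨h3 | h3, -⟩
        · rcases s'.only _ (by omega) h3 with e | e <;> omega
        · rcases s'.only _ (by omega) h3 with e | e <;> omega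
  obtain ⟨D0, hT0⟩ := w.w.cur_tight
  have n12 : nr (cur 1) (cur 2) = true := w.w.nwk 1 le_rfl (by norm_num)
  have n23 : nr (cur 2) (cur 3) = true := w.w.nwk 2 (by norm_num) (by norm_num)
  have nA : cur 1 ≠ neg hA := (hAx cur).1.1 (frk_ne _ _ _ hT0.1).2
  have nB : cur 3 ≠ neg hB := (hBx cur).1.1 (frk_ne _ _ _ hT0.2.2).2
  obtain ⟨D, hT⟩ := okc (cur 1) (cur 3) w.w.hL n12 n23 w.w.hW nA nB
  obtain ⟨U1, U3⟩ := hU _ okc (cur 1) (cur 3) w.w.hL n12 n23 w.w.hW nA nB
  have hsum : ∀ mu D, Tight D (fun j => lbl 3 X Y mu f (c j)) m →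
      add (mu 3) hB = neg (add (mu 1) hA) := by
    intro mu D hT
    rw [← (hAx mu).2, ← (hBx mu).2]
    have := tight_sums hT
    rw [if_neg (by omega)] at this
    exact this
  have hW : W = neg L := fuf_sum L W (cur 1) (cur 2) (cur 3) hA hB U1 U3
    (hsum (wk3 (cur 1) (cur 2) (cur 3)) D hT)
  -- the second walk
  obtain ⟨u, hu, hu1, hu2, hu3⟩ : ∃ u ∈ A, u ≠ L ∧ u ≠ neg L ∧ u ≠ cur 2 := by
    by_contra hcon
    push Not at hcon
    have : A ⊆ {L, neg L, cur 2} := by
      intro u hu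
      rw [mem_insert, mem_insert, mem_singleton]
      by_cases e1 : u = L
      · exact Or.inl e1
      · by_cases e2 : u = neg L
        · exact Or.inr (Or.inl e2)
        · exact Or.inr (Or.inr (hcon u hu e1 e2))
    have := (Finset.card_le_card this).trans Finset.card_le_three
    omega
  obtain ⟨t', t1, t2, t3⟩ := two_in L u (neg hA) hu2
  obtain ⟨q', q1, q2, q3⟩ := two_in u W (neg hB) (by
    rw [hW]
    have : ∀ a b : Q, a ≠ b → neg b ≠ neg a := by decide
    exact this _ _ hu1)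
  obtain ⟨D', hT'⟩ := okA u hu t' q' t1 t2 (nr_symm q1) q2 t3 q3
  obtain ⟨U1', U3'⟩ := hU u (okA u hu) t' q' t1 t2 (nr_symm q1) q2 t3 q3
  have hD : wD D = neg (add L (cur 2)) := by
    rw [← frk_add _ _ _ hT.1]
    exact ((hAx _).2).trans (fuf_type _ _ _ _ U1)
  have hD' : wD D' = neg (add L u) := by
    rw [← frk_add _ _ _ hT'.1]
    exact ((hAx _).2).trans (fuf_type _ _ _ _ U1')
  have hne : D ≠ D' := by
    rintro rfl
    rw [hD] at hD'
    have : ∀ a b c' : Q, neg (add a b) = neg (add a c') → b = c' := by decide +kernel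
    exact hu3 (this _ _ _ hD').symm
  have hδ : add (wD D) (wD D') = add (cur 2) u := by rw [hD, hD']; exact delta_fin _ _ _
  have et : t' = add (cur 1) (add (wD D) (wD D')) := by
    rw [hδ]; exact fuf_shift L _ _ _ _ hA U1 U1'
  have eq' : q' = add (cur 3) (add (wD D) (wD D')) := by
    rw [hδ]
    exact fuf_shift W _ _ _ _ hB (by rw [CLB.H95.add_comm' W]; exact U3)
      (by rw [CLB.H95.add_comm' W]; exact U3')
  obtain ⟨hax, hom⟩ := fuf_fin' L D D' (cur 1) (by
      rw [Bool.and_eq_true, Bool.and_eq_true, Bool.and_eq_true, Bool.and_eq_true, bne_iff_ne]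
      refine ⟨⟨⟨⟨hne, w.w.hL⟩, ?_⟩, ?_⟩, ?_⟩
      · rw [hD, back_fin]; exact n12
      · rw [← et]; exact t1
      · rw [← et, hD', back_fin]; exact t2) (cur 3) (by
      rw [Bool.and_eq_true, Bool.and_eq_true, Bool.and_eq_true]
      refine ⟨⟨⟨?_, ?_⟩, ?_⟩, ?_⟩
      · rw [hD, back_fin]; exact n23
      · rw [← hW]; exact w.w.hW
      · rw [← eq', hD', back_fin]; exact nr_symm q1
      · rw [← eq', ← hW]; exact q2)
  -- two tight labellings
  obtain ⟨τ, τT, τ1, τm, τj⟩ := exists_tau hm hl hl'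
  have lab1 : ∀ (mu : ℕ → Q) (j : ℕ), InU X Y 1 (c j) →
      lbl 3 X Y mu f (c j) = ul X 1 (c j) (mu 1) := fun mu j hj => lbl_ul w.w.ch le_rfl (by norm_num) hj
  have lab3 : ∀ (mu : ℕ → Q) (j : ℕ), InU X Y 3 (c j) →
      lbl 3 X Y mu f (c j) = ul X 3 (c j) (mu 3) := fun mu j hj => lbl_ul w.w.ch (by norm_num) le_rfl hj
  have kadd : ∀ (b : Bool) (t d : Q), add (add t d) (b, b, b) = add (add t (b, b, b)) d := by
    decide +kernel
  have ch1 : ∀ j, InU X Y 1 (c j) → lbl 3 X Y (wk3 t' u q') f (c j) =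
      add (lbl 3 X Y (wk3 (cur 1) (cur 2) (cur 3)) f (c j)) (add (wD D) (wD D')) := by
    intro j hj
    obtain ⟨b, hb⟩ := ul_bool X 1 (c j)
    rw [lab1 _ j hj, lab1 _ j hj, hb, hb]
    show add t' (b, b, b) = add (add (cur 1) (b, b, b)) _
    rw [et, kadd]
  have ch3 : ∀ j, InU X Y 3 (c j) → lbl 3 X Y (wk3 t' u q') f (c j) =
      add (lbl 3 X Y (wk3 (cur 1) (cur 2) (cur 3)) f (c j)) (add (wD D) (wD D')) := by
    intro j hj
    obtain ⟨b, hb⟩ := ul_bool X 3 (c j)
    rw [lab3 _ j hj, lab3 _ j hj, hb, hb]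
    show add q' (b, b, b) = add (add (cur 3) (b, b, b)) _
    rw [eq', kadd]
  have key := two_tight (g := g) (g' := g') (τT D _ hT) (τT D' _ hT') hax
    (fun j j1 j2 j3 => by
      rcases j3 with rfl | rfl | rfl | rfl
      · show lbl 3 X Y _ f (c (τ 1)) = _
        rw [τ1]; exact ch1 _ s.inl
      · show lbl 3 X Y _ f (c (τ j)) = _
        rw [τj j (by omega) (by omega)]; exact ch1 _ s.ing
      · show lbl 3 X Y _ f (c (τ j)) = _
        rw [τj j (by omega) (by omega)]; exact ch3 _ s'.ing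
      · show lbl 3 X Y _ f (c (τ j)) = _
        rw [τm]; exact ch3 _ s'.inl)
    (fun j j1 j2 j3 => by
      show lbl 3 X Y _ f (c (τ j)) = lbl 3 X Y _ f (c (τ j))
      rw [τj j (by omega) (by omega)]
      have := out j (by omega) (by omega) (by omega) (by omega) (by omega)
      rw [lbl_out this, lbl_out this])
    (by omega) (by omega) (by omega) (by omega) (by omega) (by omega) (by omega) hgg (by
      show lbl 3 X Y _ f (c (τ g)) = neg (lbl 3 X Y _ f (c (τ 1)))
      rw [τ1, τj g (by omega) (by omega), lab1 _ g s.ing, lab1 _ l s.inl]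
      exact ul_mate (Chn.xy_ne w.w.ch le_rfl (by norm_num)) s.inl s.ing s.me.ne _)
  obtain ⟨k1, k3, k4⟩ := key
  obtain ⟨b, hb⟩ := ul_bool X 1 (c g)
  obtain ⟨b', hb'⟩ := ul_bool X 3 (c g')
  have vg : lbl 3 X Y (wk3 (cur 1) (cur 2) (cur 3)) f (c (τ g)) = add (cur 1) (b, b, b) := by
    rw [τj g (by omega) (by omega), lab1 _ g s.ing, hb]; rfl
  have vg' : lbl 3 X Y (wk3 (cur 1) (cur 2) (cur 3)) f (c (τ g')) = add (cur 3) (b', b', b') := by
    rw [τj g' (by omega) (by omega), lab3 _ g' s'.ing, hb']; rfl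
  have hm4 : m % 4 = 3 ∨ m % 4 = 1 := by omega
  rcases hm4 with hm4 | hm4
  · have h5 := k3 hm4
    simp only [vg, vg'] at h5
    rw [← hom] at h5
    have h6 := letters_fin _ _ _ _ h5
    refine ⟨hm4, k1, by omega, by omega, ?_⟩
    have hx1 : c g = X 1 → ∀ t, sg 1 t = add t (b, b, b) := by
      intro he t
      rw [← hb]
      unfold ul
      rw [if_pos he]
    have hy1 : c g = Y 1 → ∀ t, neg (sg 1 t) = add t (b, b, b) := by
      intro he t
      rw [← hb]
      unfold ul
      rw [if_neg (by rw [he]; exact (Chn.xy_ne w.w.ch le_rfl (by norm_num)).symm)]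
    have hx3 : c g' = X 3 → ∀ t, sg 3 t = add t (b', b', b') := by
      intro he t
      rw [← hb']
      unfold ul
      rw [if_pos he]
    have hy3 : c g' = Y 3 → ∀ t, neg (sg 3 t) = add t (b', b', b') := by
      intro he t
      rw [← hb']
      unfold ul
      rw [if_neg (by rw [he]; exact (Chn.xy_ne w.w.ch (by norm_num) le_rfl).symm)]
    have s13 : ∀ t : Q, sg 3 t = sg 1 t := fun t => by unfold sg; norm_num
    have kb : ∀ b b' : Bool, (∀ t : Q, add t (b, b, b) = add t (b', b', b')) → b = b' := by decide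
    rcases s.ing with e1 | e1 <;> rcases s'.ing with e3 | e3
    · exfalso
      exact h6 (kb _ _ fun t => by rw [← hx1 e1, ← hx3 e3, s13])
    · exact Or.inl ⟨e1, e3⟩
    · exact Or.inr ⟨e1, e3⟩
    · exfalso
      exact h6 (kb _ _ fun t => by rw [← hy1 e1, ← hy3 e3, s13])
  · exfalso
    have h5 := k4 hm4
    simp only [vg, vg'] at h5
    have h6 := letters_fin' _ _ _ _ h5
    rw [hom] at h6
    have h7 := om_ne D D' hax
    rcases h6 with h6 | h6
    · exact h7.1 h6
    · exact h7.2 h6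

end CLB.H45
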