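import Pool.Agent.Helper45_DA.FUF

/-!
Two full units around an unseen unit: the labels of the unseen unit.
-/

set_option autoImplicit false
set_option linter.unusedSectionVars false

namespace CLB.H45

open Finset Classical
open H3DA (Q neg nr)
open CLB.H3 (CExt Cat IsTwo Fits UPath he_of_unc cat_structure chn_side KTight exists_ktight no_cext
  Leaf cext_or fits_other TB tb_inner1 tb_inner2 tb_leaf2 known_right known_left pos)
open CLB.H95

variable {V : Type*} {G : SimpleGraph V} {R : V → Bool} [Fintype V] {k r : ℕ} {x y X Y : ℕ → V}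
  {m : ℕ} {z c : ℕ → V} {f : V → Q} {cur : ℕ → Q} {L W : Q}

/-- The labels forbidden at one vertex by a family with one port. -/
lemma forb_card {i : ℕ} {v : V} {Φ : V → V → Finset Q} (h2 : ∀ w, (Φ v w).card ≤ 2)
    (h1 : (prt G R v).card ≤ 1) :
    (univ.filter (fun t : Q => ∃ w ∈ prt G R v, ul X i v t ∈ Φ v w)).card ≤ 2 := by
  by_cases hp : (prt G R v).Nonempty
  · obtain ⟨w0, hw0⟩ := hp
    refine le_trans (Finset.card_le_card_of_injOn (fun t => ul X i v t) (fun t ht => ?_)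
      (fun s _ t _ hst => ul_inj X i v hst)) (h2 w0)
    rw [coe_filter, Set.mem_ofPred_eq] at ht
    obtain ⟨-, w, hw, ht⟩ := ht
    rw [mem_coe, Finset.card_le_one.1 h1 w0 hw0 w hw]
    exact ht
  · have : univ.filter (fun t : Q => ∃ w ∈ prt G R v, ul X i v t ∈ Φ v w) = ∅ := by
      rw [Finset.filter_eq_empty_iff]
      rintro t - ⟨w, hw, -⟩
      exact hp ⟨w, hw⟩
    rw [this]; simp

/-- Ports of other components in the window. -/
lemma FW.foreign (w : FW G R X Y m z c f cur L W) {m' : ℕ} {z' c' : ℕ → V} (hC : Cat G R m' z' c')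
    (hne : cSupp m' z' ≠ cSupp m z) {j : ℕ} (hj : j ≤ m' + 1) (hin : InC 3 X Y (c' j)) :
    InU X Y 2 (c' j) := by
  have a2 := cl_mem hC.pos hj
  have hu := hC.unc _ a2.1 a2.2
  have key : ∀ i, 1 ≤ i → i ≤ 3 → Own X Y m c i → InU X Y i (c' j) → False := by
    intro i i1 i2 ho hin
    have := w.w.own_prt i1 i2 ho hin (cat_adj_cl hC hj).symm hu
    exact hne (cSupp_eq hC w.w.cat (mem_cSupp a2.1 a2.2) this)
  rcases inC_three.1 hin with h | h | h
  · exact (key 1 le_rfl (by norm_num) w.o1 h).elim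
  · exact h
  · exact (key 3 (by norm_num) le_rfl w.o3 h).elim

lemma FW.two_ports (w : FW G R X Y m z c f cur L W) {m' : ℕ} {z' c' : ℕ → V} (hC : Cat G R m' z' c')
    {i j : ℕ} (hi : i ≤ m' + 1) (hj : j ≤ m' + 1) (hij : i ≠ j) (h1 : InU X Y 2 (c' i))
    (h2 : InU X Y 2 (c' j)) : Me G R (c' i) (c' j) := by
  have hme := w.w.ch.me 2 (by norm_num) (by norm_num)
  obtain ⟨u, hu⟩ := w.w.lkX 2 (by norm_num) (by norm_num)
  obtain ⟨u', hu'⟩ := w.w.lkY 2 (by norm_num) (by norm_num)
  rcases h1 with h1 | h1 <;> rcases h2 with h2 | h2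
  · exact absurd (one_port w.w.hG hC hu hi hj h1 h2) hij
  · rw [h1, h2]; exact hme
  · rw [h1, h2]; exact hme.symm
  · exact absurd (one_port w.w.hG hC hu' hi hj h1 h2) hij

lemma FW.far (w : FW G R X Y m z c f cur L W) {m' : ℕ} {z' c' : ℕ → V} (hC : Cat G R m' z' c')
    (hne : cSupp m' z' ≠ cSupp m z) (hm' : 2 ≤ m') {i j : ℕ} (hi : i ≤ m' + 1) (hj : j ≤ m' + 1)
    (hij : i ≠ j) (h1 : InC 3 X Y (c' i)) (h2 : InC 3 X Y (c' j)) :
    pos m' i + 4 ≤ pos m' j ∨ pos m' j + 4 ≤ pos m' i :=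
  mate_pos w.w.hG w.w.hc hC hm' hi hj
    (w.two_ports hC hi hj hij (w.foreign hC hne hi h1) (w.foreign hC hne hj h2))

lemma FW.clean (w : FW G R X Y m z c f cur L W) : CleanR G R 3 X Y m z := by
  intro m' z' c' hC hne _
  refine ⟨fun h1 i j hi hj hin hjn => ?_, fun h2 => Or.inr fun hnc => ?_⟩
  · subst h1
    by_contra hij
    have hme := w.two_ports hC (by omega) (by omega) hij (w.foreign hC hne (by omega) hin)
      (w.foreign hC hne (by omega) hjn)
    have a1 := cat_adj_cl hC (j := i) (by omega)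
    have a2 := cat_adj_cl hC (j := j) (by omega)
    have c1 := cl_mem hC.pos (j := i) (by omega)
    have c2 := cl_mem hC.pos (j := j) (by omega)
    rw [show cl 1 i = 1 by omega] at a1
    rw [show cl 1 j = 1 by omega] at a2
    exact w.w.hG.tri _ _ _ a1.symm hme.1 a2.symm
  · have far := fun (i j : ℕ) (hi : i ≤ m' + 1) (hj : j ≤ m' + 1) (hij : i ≠ j)
      (h1 : InC 3 X Y (c' i)) (h2' : InC 3 X Y (c' j)) => w.far hC hne h2 hi hj hij h1 h2'
    have p0 : pos m' 0 = 1 := posl m'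
    have p1 : pos m' 1 = 1 := posm le_rfl (by omega)
    have pm : pos m' m' = m' := posm (by omega) le_rfl
    have pm1 : pos m' (m' + 1) = m' := posr m'
    have h01 : InC 3 X Y (c' 0) → InC 3 X Y (c' 1) → False := fun h1 h2 => by
      have := far 0 1 (by omega) (by omega) (by omega) h1 h2
      omega
    have hmm : InC 3 X Y (c' m') → InC 3 X Y (c' (m' + 1)) → False := fun h1 h2 => by
      have := far m' (m' + 1) (by omega) le_rfl (by omega) h1 h2
      omega
    rcases hnc with ⟨e, h1, h2'⟩ | ⟨h1, h3, -⟩ | ⟨h1, h3, -⟩ | ⟨h1, h3, -⟩ | ⟨-, h1⟩ | ⟨-, h1, h3, -⟩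
    · rcases h1 with h1 | h1 <;> rcases h2' with h3 | h3
      · have := far 0 m' (by omega) (by omega) (by omega) h1 h3; omega
      · have := far 0 (m' + 1) (by omega) le_rfl (by omega) h1 h3; omega
      · have := far 1 m' (by omega) (by omega) (by omega) h1 h3; omega
      · have := far 1 (m' + 1) (by omega) le_rfl (by omega) h1 h3; omega
    · exact h01 h1 h3
    · exact hmm h1 h3
    · exact h01 h1 h3
    · rcases h1 with ⟨h1, h3, -⟩ | ⟨h1, h3, -⟩
      · exact h01 h1 h3
      · exact hmm h1 h3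
    · exact h01 h1 h3

lemma FW.nocpl (w : FW G R X Y m z c f cur L W) : ¬ HasCpl G R 3 X Y m z := by
  rintro ⟨m', z', c', hC, hne, rfl, a, b, ha, hb, -, -, hab⟩
  have key : ∀ j ≤ 3, c' j = X 1 → False := by
    intro j hj he
    have h1 : InU X Y 2 (c' j) := w.foreign hC hne (by omega) (by rw [he]; exact InC.x le_rfl (by norm_num))
    have i1 := InU.idx w.w.ch (i := 2) (by norm_num) (by norm_num) h1
    have i2 := InU.idx w.w.ch (i := 1) le_rfl (by norm_num) (v := c' j) (Or.inl he)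
    omega
  rcases hab with ⟨h1, _⟩ | ⟨_, h1⟩
  · exact key a (by omega) h1
  · exact key b (by omega) h1

/-- **The list of the unseen unit.** -/
theorem FW.list (w : FW G R X Y m z c f cur L W)
    (hpos : ∀ i j, i ≤ m + 1 → j ≤ m + 1 → InC 3 X Y (c i) → InC 3 X Y (c j) →
      pos m i = pos m j → i = j) :
    ∃ A : Finset Q, 4 ≤ A.card ∧ ∀ t u q : Q, u ∈ A → nr t L = true → nr t u = true →
      nr u q = true → nr q W = true → LOK 3 X Y m c f (wk3 t u q) →
      ∃ D, Tight D (fun j => lbl 3 X Y (wk3 t u q) f (c j)) m := by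
  have hG := w.w.hG
  obtain ⟨Φ, P, hΦ2, hΦ0, -, hmain⟩ := win_rel hG w.w.hc w.w.cat w.w.ch w.w.ncyc w.w.off
    (Or.inl (by norm_num)) w.clean true
  have hP : ∀ v, InU X Y 2 v → (prt G R v).card ≤ 1 := by
    rintro v (rfl | rfl)
    · obtain ⟨u, hu⟩ := w.w.lkX 2 (by norm_num) (by norm_num)
      exact prt_card_lk hG hu
    · obtain ⟨u, hu⟩ := w.w.lkY 2 (by norm_num) (by norm_num)
      exact prt_card_lk hG hu
  refine ⟨univ.filter (fun t => ∀ v w', InU X Y 2 v → w' ∈ prt G R v → ul X 2 v t ∉ Φ v w'), ?_, ?_⟩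
  · have hsub : (univ : Finset Q) ⊆ univ.filter (fun t => ∀ v w', InU X Y 2 v → w' ∈ prt G R v →
        ul X 2 v t ∉ Φ v w') ∪
        ((univ.filter (fun t : Q => ∃ w ∈ prt G R (X 2), ul X 2 (X 2) t ∈ Φ (X 2) w)) ∪
          (univ.filter (fun t : Q => ∃ w ∈ prt G R (Y 2), ul X 2 (Y 2) t ∈ Φ (Y 2) w))) := by
      intro t _
      rw [mem_union]
      by_cases ht : ∀ v w', InU X Y 2 v → w' ∈ prt G R v → ul X 2 v t ∉ Φ v w'
      · exact Or.inl (mem_filter.2 ⟨mem_univ _, ht⟩)
      · right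
        push Not at ht
        obtain ⟨v, w', hv, hw', hin⟩ := ht
        rw [mem_union]
        rcases hv with rfl | rfl
        · exact Or.inl (mem_filter.2 ⟨mem_univ _, w', hw', hin⟩)
        · exact Or.inr (mem_filter.2 ⟨mem_univ _, w', hw', hin⟩)
    have c1 := Finset.card_le_card hsub
    have c2 := Finset.card_union_le (univ.filter (fun t => ∀ v w', InU X Y 2 v → w' ∈ prt G R v →
        ul X 2 v t ∉ Φ v w'))
        ((univ.filter (fun t : Q => ∃ w ∈ prt G R (X 2), ul X 2 (X 2) t ∈ Φ (X 2) w)) ∪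
          (univ.filter (fun t : Q => ∃ w ∈ prt G R (Y 2), ul X 2 (Y 2) t ∈ Φ (Y 2) w)))
    have c3 := Finset.card_union_le
        (univ.filter (fun t : Q => ∃ w ∈ prt G R (X 2), ul X 2 (X 2) t ∈ Φ (X 2) w))
        (univ.filter (fun t : Q => ∃ w ∈ prt G R (Y 2), ul X 2 (Y 2) t ∈ Φ (Y 2) w))
    have c4 := forb_card (X := X) (i := 2) (hΦ2 (X 2)) (hP _ (Or.inl rfl))
    have c5 := forb_card (X := X) (i := 2) (hΦ2 (Y 2)) (hP _ (Or.inr rfl))
    have c6 : (univ : Finset Q).card = 8 := by decide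
    omega
  · intro t u q hu h1 h2 h3 h4 hl
    rw [mem_filter] at hu
    have hprt : ∀ v w', ¬ InU X Y 2 v → InC 3 X Y v → w' ∈ prt G R v → w' ∈ cSupp m z := by
      intro v w' hv hin hw'
      rw [mem_prt] at hw'
      rcases inC_three.1 hin with h | h | h
      · exact w.w.own_prt le_rfl (by norm_num) w.o1 h hw'.1.symm hw'.2
      · exact absurd h hv
      · exact w.w.own_prt (by norm_num) le_rfl w.o3 h hw'.1.symm hw'.2
    have hunp : ∀ v w', InU X Y 2 v → w' ∈ cSupp m z → ¬ G.Adj w' v := by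
      rintro v w' hv ⟨i, i1, i2, rfl⟩ hadj
      obtain ⟨j, j1, j2, -⟩ := cat_port w.w.cat i1 i2 hadj
        (w.w.ch.cov (hv.inC (by norm_num) (by norm_num)))
      exact w.un j j1 (j2 ▸ hv)
    refine w.w.tight_of hl (hmain _ (fun i i1 i2 => ?_) (fun i i1 i2 => ?_) (fun v w' hin hw' => ?_)
      (fun w' a b hw' ha hb hab hia hib => ?_) (fun hh => absurd hh w.nocpl))
    · have : i = 1 ∨ i = 2 := by omega
      rcases this with rfl | rfl
      · exact h2
      · exact h3
    · unfold wall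
      rw [mem_inter, mem_filter, mem_filter]
      refine ⟨⟨mem_univ _, fun he => ?_⟩, ⟨mem_univ _, fun he => ?_⟩⟩
      · subst he
        exact (w.w.wl _).1 h1
      · subst he
        exact (w.w.wr _).1 h4
    · by_cases hv : InU X Y 2 v
      · rw [lbl_ul w.w.ch (by norm_num) (by norm_num) hv]
        exact hu.2 v w' hv hw'
      · rw [hΦ0 v w' (hprt v w' hv hin hw')]
        simp
    · exfalso
      have hwa : w' ∈ prt G R a := by rw [mem_prt]; exact ⟨ha.symm, hw'⟩
      have hwb : w' ∈ prt G R b := by rw [mem_prt]; exact ⟨hb.symm, hw'⟩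
      by_cases hva : InU X Y 2 a
      · by_cases hvb : InU X Y 2 b
        · exact idx_ne hG w.w.ch hia hib hab ha hb
            ((InU.idx w.w.ch (by norm_num) (by norm_num) hva).trans
              (InU.idx w.w.ch (by norm_num) (by norm_num) hvb).symm)
        · exact hunp a w' hva (hprt b w' hvb hib hwb) ha
      · have hs := hprt a w' hva hia hwa
        by_cases hvb : InU X Y 2 b
        · exact hunp b w' hvb hs hb
        · obtain ⟨i, i1, i2, rfl⟩ := hs
          obtain ⟨j, j1, j2, j3⟩ := cat_port w.w.cat i1 i2 ha (w.w.ch.cov hia)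
          obtain ⟨j', j1', j2', j3'⟩ := cat_port w.w.cat i1 i2 hb (w.w.ch.cov hib)
          have hjj : j = j' := hpos j j' j1 j1' (j2 ▸ hia) (j2' ▸ hib) (by
            have e : ∀ j, pos m j = cl m j := fun j => rfl
            rw [e, e, j3, j3'])
          exact hab (by rw [← j2, ← j2', hjj])

end CLB.H45
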