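import Pool.Agent.Helper45_DA.Shp
import Pool.Agent.Helper45_DA.Dec
import Pool.Agent.Helper45_DA.Dec3

/-!
Two full units around an unseen unit, inside a chain: the window.
-/

set_option autoImplicit false
set_option linter.unusedSectionVars false

namespace CLB.H45

open Finset Classical
open H3DA (Q neg nr)
open CLB.H3 (CExt Cat IsTwo Fits UPath he_of_unc cat_structure chn_side KTight exists_ktight no_cext
  Leaf cext_or fits_other TB tb_inner1 tb_inner2 tb_leaf2 known_right known_left pos)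
open CLB.H95

variable {V : Type*} {G : SimpleGraph V} {R : V → Bool} [Fintype V] {k r : ℕ} {x y X Y : ℕ → V}
  {m : ℕ} {z c : ℕ → V} {f : V → Q} {cur : ℕ → Q} {L W : Q}

/-- A window with three units, the middle one unseen. -/
structure FW (G : SimpleGraph V) (R : V → Bool) (X Y : ℕ → V) (m : ℕ) (z c : ℕ → V)
    (f : V → Q) (cur : ℕ → Q) (L W : Q) : Prop where
  w : IW G R 3 X Y m z c f cur L W
  o1 : Own X Y m c 1
  o3 : Own X Y m c 3
  un : ∀ j ≤ m + 1, ¬ InU X Y 2 (c j)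

theorem fw_of (hG : ClassC G R) (hc : Crit G R) (hcat : Cat G R m z c) (hm : 2 ≤ m)
    (h : Chn G R k x y) {v : ℕ} (h1 : 2 ≤ v) (h2 : v + 3 ≤ k) (a1 : ∃ j ≤ m + 1, c j = x v)
    (a2 : ∃ j ≤ m + 1, c j = y v) (a3 : ∃ j ≤ m + 1, c j = x (v + 2))
    (a4 : ∃ j ≤ m + 1, c j = y (v + 2))
    (hun : ∀ j ≤ m + 1, c j ≠ x (v + 1) ∧ c j ≠ y (v + 1)) :
    ∃ f cur L W, FW G R (fun i => x (v - 1 + i)) (fun i => y (v - 1 + i)) m z c f cur L W := by
  obtain ⟨f0, D0, hK⟩ := exists_ktight hG hc hcat hm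
  obtain ⟨j0, j01, j02⟩ := id a1
  obtain ⟨f, cur, L, W, w, -⟩ := iw_of hG hc hcat (by omega) h hK h1 (show v ≤ v + 2 by omega)
    (by omega) ⟨j0, j01, v, le_rfl, by omega, Or.inl j02⟩
  rw [show v + 2 + 1 - v = 3 by omega] at w
  refine ⟨f, cur, L, W, w, ⟨?_, ?_⟩, ⟨?_, ?_⟩, fun j hj => ?_⟩
  · show ∃ j ≤ m + 1, c j = x (v - 1 + 1)
    rw [show v - 1 + 1 = v by omega]; exact a1
  · show ∃ j ≤ m + 1, c j = y (v - 1 + 1)
    rw [show v - 1 + 1 = v by omega]; exact a2
  · show ∃ j ≤ m + 1, c j = x (v - 1 + 3)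
    rw [show v - 1 + 3 = v + 2 by omega]; exact a3
  · show ∃ j ≤ m + 1, c j = y (v - 1 + 3)
    rw [show v - 1 + 3 = v + 2 by omega]; exact a4
  · show ¬ (c j = x (v - 1 + 2) ∨ c j = y (v - 1 + 2))
    rw [show v - 1 + 2 = v + 1 by omega, not_or]
    exact hun j hj

lemma Shp.win {v i l g : ℕ} (s : Shp G R x y m c v l g) (ex : X i = x v) (ey : Y i = y v) :
    Shp G R X Y m c i l g := by
  have e : ∀ u, InU X Y i u ↔ InU x y v u := by
    intro u
    unfold InU
    rw [ex, ey]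
  exact ⟨s.l1, s.g1, s.leaf, s.me, (e _).2 s.inl, (e _).2 s.ing, fun j hj hin => s.only j hj ((e _).1 hin),
    s.mod, s.far, by rw [ex]; exact s.px, by rw [ey]; exact s.py⟩

/-- A walk of three units. -/
def wk3 (t u r : Q) (i : ℕ) : Q := if i = 1 then t else if i = 2 then u else r

lemma inC_three {X Y : ℕ → V} {u : V} : InC 3 X Y u ↔ InU X Y 1 u ∨ InU X Y 2 u ∨ InU X Y 3 u := by
  constructor
  · rintro ⟨i, h1, h2, h3⟩
    have : i = 1 ∨ i = 2 ∨ i = 3 := by omega
    rcases this with rfl | rfl | rfl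
    · exact Or.inl h3
    · exact Or.inr (Or.inl h3)
    · exact Or.inr (Or.inr h3)
  · rintro (h | h | h)
    · exact ⟨1, le_rfl, by norm_num, h⟩
    · exact ⟨2, by norm_num, by norm_num, h⟩
    · exact ⟨3, by norm_num, le_rfl, h⟩

lemma FW.out (w : FW G R X Y m z c f cur L W) {l g l' g' : ℕ} (s : Shp G R X Y m c 1 l g)
    (s' : Shp G R X Y m c 3 l' g') : ∀ j ≤ m + 1, j ≠ l → j ≠ g → j ≠ l' → j ≠ g' →
      ¬ InC 3 X Y (c j) := by
  intro j hj n1 n2 n3 n4 hin
  rcases inC_three.1 hin with hin | hin | hin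
  · rcases s.only j hj hin with e | e
    · exact n1 e
    · exact n2 e
  · exact w.un j hj hin
  · rcases s'.only j hj hin with e | e
    · exact n3 e
    · exact n4 e

/-- Ports of units 1 and 3 are different. -/
lemma FW.ne13 (w : FW G R X Y m z c f cur L W) {i j : ℕ} (h1 : InU X Y 1 (c i))
    (h3 : InU X Y 3 (c j)) : i ≠ j := by
  rintro rfl
  have a := InU.idx w.w.ch (i := 1) le_rfl (by norm_num) h1
  have b := InU.idx w.w.ch (i := 3) (by norm_num) le_rfl h3
  omega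

/-- Free walks with the current label at the unseen unit. -/
lemma FW.walk (w : FW G R X Y m z c f cur L W) {t q : Q} (h1 : nr t L = true)
    (h2 : nr t (cur 2) = true) (h3 : nr (cur 2) q = true) (h4 : nr q W = true)
    (hl : LOK 3 X Y m c f (wk3 t (cur 2) q)) :
    ∃ D, Tight D (fun j => lbl 3 X Y (wk3 t (cur 2) q) f (c j)) m := by
  refine w.w.walk (mu := wk3 t (cur 2) q) (fun i i1 i2 => ?_) h1 h4 (fun i i1 i2 => ?_) hl
  · have : i = 1 ∨ i = 2 := by omega
    rcases this with rfl | rfl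
    · exact h2
    · exact h3
  · have : i = 1 ∨ i = 2 ∨ i = 3 := by omega
    rcases this with rfl | rfl | rfl
    · exact Or.inr w.o1
    · exact Or.inl rfl
    · exact Or.inr w.o3

lemma IW.tb_one (w : IW G R r X Y m z c f cur L W) {g i : ℕ} (i1 : 1 ≤ i)
    (i2 : i ≤ r) (hin : InU X Y i (c g)) (hB : TB m (fun j => InC r X Y (c j)) (fun j => f (c j)) g 1)
    {mu : ℕ → Q} {D : Ty} (hT : Tight D (fun j => lbl r X Y mu f (c j)) m) : mu i = cur i := by
  obtain ⟨D0, hT0⟩ := w.cur_tight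
  by_contra hne
  have := w.tb_card (S := {mu i, cur i}) i1 i2 hin hB (fun t ht => by
    rw [mem_insert, mem_singleton] at ht
    rcases ht with rfl | rfl
    · exact ⟨mu, D, rfl, hT⟩
    · exact ⟨cur, D0, rfl, hT0⟩)
  rw [Finset.card_pair hne] at this
  omega

lemma ul_mate {i : ℕ} {a b : V} (hne : X i ≠ Y i) (ha : InU X Y i a) (hb : InU X Y i b)
    (hab : a ≠ b) (t : Q) : ul X i b t = neg (ul X i a t) := by
  unfold ul
  rcases ha with rfl | rfl <;> rcases hb with rfl | rfl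
  · exact absurd rfl hab
  · rw [if_pos rfl, if_neg hne.symm]
  · rw [if_pos rfl, if_neg hne.symm, H3DA.neg_neg]
  · exact absurd rfl hab

lemma Chn.xy_ne (h : Chn G R r X Y) {i : ℕ} (h1 : 1 ≤ i) (h2 : i ≤ r) : X i ≠ Y i :=
  (h.me i h1 h2).ne

/-- The constant of the letter. -/
lemma ul_bool (X : ℕ → V) (i : ℕ) (v : V) : ∃ b : Bool, ∀ t, ul X i v t = add t (b, b, b) := by
  obtain ⟨κ, hκ, h⟩ := ul_add_const X i v
  rcases hκ with rfl | rfl
  · exact ⟨false, h⟩
  · exact ⟨true, h⟩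

/-- The conflict of two leaves of one fork in units 1 and 3. -/
lemma conf13 : ∀ (b b' : Bool) (t q : Q), (add t (b, b, b) = neg (add q (b', b', b')) ↔
    t = neg (add q (xor b b', xor b b', xor b b'))) := by decide +kernel

lemma conf13' : ∀ (b b' : Bool) (t q : Q), (add t (b, b, b) = add q (b', b', b') ↔
    t = add q (xor b b', xor b b', xor b b')) := by decide +kernel

lemma neg_symm' : ∀ a b : Q, a = neg b ↔ b = neg a := by decide

lemma Shp.posl_of {v l g : ℕ} (s : Shp G R X Y m c v l g) (hm : 6 ≤ m) (pl : pos m l = 1) :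
    l = 0 ∨ l = 1 := by
  rcases s.leaf with h | h | h | h
  · exact Or.inl h
  · exact Or.inr h
  · rw [h, posm (by omega) le_rfl] at pl; omega
  · rw [h, posr] at pl; omega

lemma Shp.posr_of {v l g : ℕ} (s : Shp G R X Y m c v l g) (hm : 6 ≤ m) (pl : pos m l = m) :
    l = m ∨ l = m + 1 := by
  rcases s.leaf with h | h | h | h
  · rw [h, posl] at pl; omega
  · rw [h, posm (by omega) (by omega)] at pl; omega
  · exact Or.inl h
  · exact Or.inr h

lemma g_inner {m g : ℕ} (hg : g ≤ m + 1) (h1 : pos m g ≠ 1) (h2 : pos m g ≠ m) :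
    pos m g = g ∧ 2 ≤ g ∧ g + 1 ≤ m := by
  have : g ≠ 0 := by rintro rfl; exact h1 (posl m)
  have : g ≠ m + 1 := by rintro rfl; exact h2 (posr m)
  have e : pos m g = g := posm (by omega) (by omega)
  rw [e] at h1 h2
  exact ⟨e, by omega, by omega⟩

/-- The labels of the left fork if both ports are in the window. -/
lemma FW.forkLL (w : FW G R X Y m z c f cur L W) {l l' : ℕ} (hl : l = 0 ∨ l = 1)
    (hl' : l' = 1 - l) (h1 : InU X Y 1 (c l)) (h3 : InU X Y 3 (c l')) :
    ∃ b : Bool, ∀ mu : ℕ → Q, (lbl 3 X Y mu f (c 0) ≠ neg (lbl 3 X Y mu f (c 1)) ↔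
      mu 1 ≠ neg (add (mu 3) (b, b, b))) ∧
      add (lbl 3 X Y mu f (c 0)) (lbl 3 X Y mu f (c 1)) =
        add (ul X 1 (c l) (mu 1)) (ul X 3 (c l') (mu 3)) ∧
      (ul X 1 (c l) (mu 1) = ul X 3 (c l') (cur 3) ↔ mu 1 = add (cur 3) (b, b, b)) := by
  obtain ⟨b1, hb1⟩ := ul_bool X 1 (c l)
  obtain ⟨b3, hb3⟩ := ul_bool X 3 (c l')
  refine ⟨xor b1 b3, fun mu => ?_⟩
  have e1 : lbl 3 X Y mu f (c l) = ul X 1 (c l) (mu 1) := lbl_ul w.w.ch le_rfl (by norm_num) h1
  have e3 : lbl 3 X Y mu f (c l') = ul X 3 (c l') (mu 3) := lbl_ul w.w.ch (by norm_num) le_rfl h3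
  have k2 : ∀ a b : Q, add a b = add b a := by decide
  refine ⟨?_, ?_, ?_⟩
  · refine not_congr ?_
    rw [← conf13 b1 b3, ← hb1, ← hb3, ← e1, ← e3]
    rcases hl with rfl | rfl
    · rw [hl']
    · rw [hl']
      exact neg_symm' _ _
  · rw [← e1, ← e3]
    rcases hl with rfl | rfl
    · rw [hl']
    · rw [hl']; exact k2 _ _
  · rw [hb1, hb3, conf13']

/-- Both leaves at the left fork, the mates inner. -/
theorem fuf_AA (w : FW G R X Y m z c f cur L W) (hm : 6 ≤ m) {l g l' g' : ℕ}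
    (s : Shp G R X Y m c 1 l g) (s' : Shp G R X Y m c 3 l' g') (pl : pos m l = 1)
    (pl' : pos m l' = 1) (pg : pos m g ≠ m) (pg' : pos m g' ≠ m) : False := by
  have hl := s.posl_of hm pl
  have hl' := s'.posl_of hm pl'
  have hll := w.ne13 s.inl s'.inl
  have hgg := w.ne13 s.ing s'.ing
  have hmod := s.mod
  have hfar := s.far
  have hmod' := s'.mod
  have hfar' := s'.far
  rw [pl] at hmod hfar
  rw [pl'] at hmod' hfar'
  obtain ⟨eg, g2, g3⟩ := g_inner s.g1 (by omega) pg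
  obtain ⟨eg', g2', g3'⟩ := g_inner s'.g1 (by omega) pg'
  rw [eg] at hmod hfar
  rw [eg'] at hmod' hfar'
  have out := w.out s s'
  have hTB : TB m (fun j => InC 3 X Y (c j)) (fun j => f (c j)) g 1 := by
    obtain ⟨D0, hT0⟩ := w.w.tight
    exact tb_inner1 hT0 (by omega) (by omega)
      (out _ (by omega) (by omega) (by omega) (by omega) (by omega))
      (out _ (by omega) (by omega) (by omega) (by omega) (by omega))
      (known_right hT0 (out _ (by omega) (by omega) (by omega) (by omega) (by omega))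
        (out _ (by omega) (by omega) (by omega) (by omega) (by omega)))
  have hTB' : TB m (fun j => InC 3 X Y (c j)) (fun j => f (c j)) g' 1 := by
    obtain ⟨D0, hT0⟩ := w.w.tight
    exact tb_inner1 hT0 (by omega) (by omega)
      (out _ (by omega) (by omega) (by omega) (by omega) (by omega))
      (out _ (by omega) (by omega) (by omega) (by omega) (by omega))
      (known_right hT0 (out _ (by omega) (by omega) (by omega) (by omega) (by omega))
        (out _ (by omega) (by omega) (by omega) (by omega) (by omega)))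
  obtain ⟨b, hb⟩ := w.forkLL hl (by omega) s.inl s'.inl
  obtain ⟨D, hT⟩ := w.w.cur_tight
  have nc := (hb cur).1.1 (frk_ne _ _ _ hT.1).2
  obtain ⟨t', r', a1, a2, a3, a4, a5, a6⟩ := c1_fin b L W (cur 1) (cur 2) (cur 3) w.w.hL
    (w.w.nwk 1 le_rfl (by norm_num)) (w.w.nwk 2 (by norm_num) (by norm_num)) w.w.hW nc
  obtain ⟨D', hT'⟩ := w.walk a1 a2 a3 a4 ⟨(hb _).1.2 a5, by
    have e1 : lbl 3 X Y (wk3 t' (cur 2) r') f (c m) = f (c m) :=
      lbl_out (out _ (by omega) (by omega) (by omega) (by omega) (by omega))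
    have e2 : lbl 3 X Y (wk3 t' (cur 2) r') f (c (m + 1)) = f (c (m + 1)) :=
      lbl_out (out _ (by omega) (by omega) (by omega) (by omega) (by omega))
    rw [e1, e2]
    obtain ⟨D0, hT0⟩ := w.w.tight
    exact (frk_ne _ _ _ hT0.2.2).2⟩
  have e1 := w.w.tb_one le_rfl (by norm_num) s.ing hTB hT'
  have e3 := w.w.tb_one (by norm_num) le_rfl s'.ing hTB' hT'
  exact a6 ⟨e1, e3⟩

/-- The first unit has both leaves, the leaf of the third unit is at the left fork. -/
theorem fuf_LLA (w : FW G R X Y m z c f cur L W) (hm : 6 ≤ m) {l g l' g' : ℕ}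
    (s : Shp G R X Y m c 1 l g) (s' : Shp G R X Y m c 3 l' g') (pl : pos m l = 1)
    (pl' : pos m l' = 1) (pg : pos m g = m) (pg' : pos m g' ≠ m) : False := by
  have hl := s.posl_of hm pl
  have hl' := s'.posl_of hm pl'
  have hll := w.ne13 s.inl s'.inl
  have hgg := w.ne13 s.ing s'.ing
  have hmod := s.mod
  have hfar := s.far
  have hmod' := s'.mod
  have hfar' := s'.far
  rw [pl] at hmod hfar
  rw [pl'] at hmod' hfar'
  have b2 := pos_mem (show 1 ≤ m by omega) s'.g1
  obtain ⟨eg', g2', g3'⟩ := g_inner s'.g1 (by omega) pg'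
  rw [eg'] at hmod' hfar'
  have hg : g = m ∨ g = m + 1 := by
    by_contra hcon
    have g1 := s.g1
    by_cases h0 : g = 0
    · rw [h0, posl] at pg; omega
    · rw [posm (by omega) (by omega)] at pg; omega
  have out := w.out s s'
  obtain ⟨b, hb⟩ := w.forkLL hl (by omega) s.inl s'.inl
  obtain ⟨D, hT⟩ := w.w.cur_tight
  have nc := (hb cur).1.1 (frk_ne _ _ _ hT.1).2
  set p := f (c (2 * m + 1 - g)) with hp
  have hpo : ∀ mu : ℕ → Q, lbl 3 X Y mu f (c (2 * m + 1 - g)) = p := fun mu =>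
    lbl_out (out _ (by omega) (by omega) (by omega) (by omega) (by omega))
  have hgl : ∀ mu : ℕ → Q, lbl 3 X Y mu f (c g) = neg (ul X 1 (c l) (mu 1)) := by
    intro mu
    have : lbl 3 X Y mu f (c g) = ul X 1 (c g) (mu 1) := lbl_ul w.w.ch le_rfl (by norm_num) s.ing
    rw [this]
    exact ul_mate (Chn.xy_ne w.w.ch le_rfl (by norm_num)) s.inl s.ing s.me.ne _
  have k2 : ∀ a b : Q, add a b = add b a := by decide
  -- the right fork
  have hR : ∀ mu : ℕ → Q, (lbl 3 X Y mu f (c m) ≠ neg (lbl 3 X Y mu f (c (m + 1))) ↔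
      ul X 1 (c l) (mu 1) ≠ p) ∧ add (lbl 3 X Y mu f (c m)) (lbl 3 X Y mu f (c (m + 1))) =
        add (neg (ul X 1 (c l) (mu 1))) p := by
    intro mu
    have k1 : ∀ a b : Q, neg a = neg b ↔ a = b := by decide
    rcases hg with rfl | rfl
    · have h1 := hpo mu
      rw [show 2 * g + 1 - g = g + 1 by omega] at h1
      rw [h1, hgl mu]
      exact ⟨not_congr (k1 _ _), rfl⟩
    · have h1 := hpo mu
      rw [show 2 * m + 1 - (m + 1) = m by omega] at h1
      rw [h1, hgl mu]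
      exact ⟨not_congr ((neg_symm' _ _).trans (k1 _ _)), k2 _ _⟩
  -- tight: the label of the third unit is fixed
  have fix : ∀ (mu : ℕ → Q) (D : Ty), Tight D (fun j => lbl 3 X Y mu f (c j)) m →
      ul X 3 (c l') (mu 3) = p := by
    intro mu D hT
    have := tight_sums hT
    rw [if_neg (by omega)] at this
    have h1 : add (neg (ul X 1 (c l) (mu 1))) p =
        neg (add (ul X 1 (c l) (mu 1)) (ul X 3 (c l') (mu 3))) := by
      rw [← (hR mu).2, ← (hb mu).2.1]; exact this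
    have k3 : ∀ a b p : Q, add (neg a) p = neg (add a b) → b = p := by decide +kernel
    exact k3 _ _ _ h1
  have hcur3 := fix cur D hT
  have nc2 : cur 1 ≠ add (cur 3) (b, b, b) := by
    intro he
    have h1 := (hb cur).2.2.2 he
    exact (hR cur).1.1 (frk_ne _ _ _ hT.2.2).2 (h1.trans hcur3)
  obtain ⟨t', r', a1, a2, a3, a4, a5, a6, a7⟩ := c5_fin b L W (cur 1) (cur 2) (cur 3) w.w.hL
    (w.w.nwk 1 le_rfl (by norm_num)) (w.w.nwk 2 (by norm_num) (by norm_num)) w.w.hW nc nc2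
  obtain ⟨D', hT'⟩ := w.walk a1 a2 a3 a4 ⟨(hb _).1.2 a5, (hR _).1.2 (fun he => a6 (by
    rw [← hcur3] at he
    exact (hb (wk3 t' (cur 2) r')).2.2.1 he))⟩
  have h3 := fix _ D' hT'
  rw [← hcur3] at h3
  exact a7 (ul_inj X 3 (c l') h3)

/-- Both units have both leaves. -/
theorem fuf_LLLL (w : FW G R X Y m z c f cur L W) (hm : 6 ≤ m) {l g l' g' : ℕ}
    (s : Shp G R X Y m c 1 l g) (s' : Shp G R X Y m c 3 l' g') (pl : pos m l = 1)
    (pl' : pos m l' = 1) (pg : pos m g = m) (pg' : pos m g' = m) : False := by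
  have hl := s.posl_of hm pl
  have hl' := s'.posl_of hm pl'
  have hll := w.ne13 s.inl s'.inl
  have hgg := w.ne13 s.ing s'.ing
  have hmod := s.mod
  rw [pl, pg] at hmod
  have gr : ∀ g ≤ m + 1, pos m g = m → g = m ∨ g = m + 1 := by
    intro g g1 pg
    by_contra hcon
    by_cases h0 : g = 0
    · rw [h0, posl] at pg; omega
    · rw [posm (by omega) (by omega)] at pg; omega
  have hg := gr g s.g1 pg
  have hg' := gr g' s'.g1 pg'
  obtain ⟨b, hb⟩ := w.forkLL hl (by omega) s.inl s'.inl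
  obtain ⟨D, hT⟩ := w.w.cur_tight
  have e1 : lbl 3 X Y cur f (c g) = neg (ul X 1 (c l) (cur 1)) := by
    have : lbl 3 X Y cur f (c g) = ul X 1 (c g) (cur 1) := lbl_ul w.w.ch le_rfl (by norm_num) s.ing
    rw [this]
    exact ul_mate (Chn.xy_ne w.w.ch le_rfl (by norm_num)) s.inl s.ing s.me.ne _
  have e3 : lbl 3 X Y cur f (c g') = neg (ul X 3 (c l') (cur 3)) := by
    have : lbl 3 X Y cur f (c g') = ul X 3 (c g') (cur 3) := lbl_ul w.w.ch (by norm_num) le_rfl s'.ing
    rw [this]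
    exact ul_mate (Chn.xy_ne w.w.ch (by norm_num) le_rfl) s'.inl s'.ing s'.me.ne _
  have hs := tight_sums hT
  rw [if_neg (by omega)] at hs
  have hs1 : add (lbl 3 X Y cur f (c m)) (lbl 3 X Y cur f (c (m + 1))) =
      neg (add (ul X 1 (c l) (cur 1)) (ul X 3 (c l') (cur 3))) := by
    rw [← (hb cur).2.1]; exact hs
  have k1 : ∀ a b : Q, add (neg a) (neg b) ≠ neg (add a b) := by decide +kernel
  have k2 : ∀ a b : Q, add (neg b) (neg a) ≠ neg (add a b) := by decide +kernel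
  have hcase : (g = m ∧ g' = m + 1) ∨ (g = m + 1 ∧ g' = m) := by omega
  rcases hcase with ⟨h1, h2⟩ | ⟨h1, h2⟩
  · rw [h1] at e1
    rw [h2] at e3
    rw [e1, e3] at hs1
    exact k1 _ _ hs1
  · rw [h1] at e1
    rw [h2] at e3
    rw [e1, e3] at hs1
    exact k2 _ _ hs1

end CLB.H45
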