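import Pool.Agent.Helper45_DA.FAB

/-!
Two full units around an unseen unit, inside a chain: all statuses.
-/

set_option autoImplicit false
set_option linter.unusedSectionVars false

namespace CLB.H45

open Finset Classical
open H3DA (Q neg nr)
open CLB.H3 (CExt Cat pos)
open CLB.H95

variable {V : Type*} {G : SimpleGraph V} {R : V → Bool} [Fintype V] {k r : ℕ} {x y X Y : ℕ → V}
  {m : ℕ} {z c : ℕ → V} {f : V → Q} {cur : ℕ → Q} {L W : Q}

lemma Shp.swap {v l g : ℕ} (s : Shp G R x y m c v l g) (hg : g = 0 ∨ g = 1 ∨ g = m ∨ g = m + 1) :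
    Shp G R x y m c v g l :=
  ⟨s.g1, s.l1, hg, s.me.symm, s.ing, s.inl, fun j hj hin => (s.only j hj hin).symm, s.mod.symm,
    s.far.symm, s.px, s.py⟩

lemma Shp.mir {v i l g : ℕ} (s : Shp G R x y m c v l g) (ex : X i = y v) (ey : Y i = x v) :
    Shp G R X Y m c i l g := by
  have e : ∀ u, InU X Y i u ↔ InU x y v u := by
    intro u
    unfold InU
    rw [ex, ey]
    exact Or.comm
  exact ⟨s.l1, s.g1, s.leaf, s.me, (e _).2 s.inl, (e _).2 s.ing, fun j hj hin => s.only j hj ((e _).1 hin),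
    s.mod, s.far, by rw [ex]; exact s.py, by rw [ey]; exact s.px⟩

lemma pos_rev {m j : ℕ} (hm : 1 ≤ m) (hj : j ≤ m + 1) : pos m (m + 1 - j) = m + 1 - pos m j := by
  unfold pos
  split_ifs <;> omega

/-- The normal form of the status of a full unit. -/
lemma Shp.norm {v l g : ℕ} (s : Shp G R x y m c v l g) (hm : 6 ≤ m) :
    ∃ l g, Shp G R x y m c v l g ∧ ((pos m l = 1 ∧ pos m g ≠ m) ∨ (pos m l = m ∧ pos m g ≠ 1) ∨
      (pos m l = 1 ∧ pos m g = m)) := by
  have pl : pos m l = 1 ∨ pos m l = m := by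
    rcases s.leaf with e | e | e | e
    · left; rw [e]; exact posl m
    · left; rw [e]; exact posm le_rfl (by omega)
    · right; rw [e]; exact posm (by omega) le_rfl
    · right; rw [e]; exact posr m
  rcases pl with pl | pl
  · by_cases pg : pos m g = m
    · exact ⟨l, g, s, Or.inr (Or.inr ⟨pl, pg⟩)⟩
    · exact ⟨l, g, s, Or.inl ⟨pl, pg⟩⟩
  · by_cases pg : pos m g = 1
    · refine ⟨g, l, s.swap ?_, Or.inr (Or.inr ⟨pg, pl⟩)⟩
      have g1 := s.g1
      by_contra hcon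
      have e := posm (m := m) (j := g) (by omega) (by omega)
      rw [e] at pg
      omega
    · exact ⟨l, g, s, Or.inr (Or.inl ⟨pl, pg⟩)⟩

/-- The exceptional structure. -/
def FStar (G : SimpleGraph V) (R : V → Bool) (x y : ℕ → V) (m : ℕ) (c : ℕ → V) (v : ℕ) : Prop :=
  ∃ l g l' g', Shp G R x y m c v l g ∧ Shp G R x y m c (v + 2) l' g' ∧ m % 4 = 3 ∧ 11 ≤ m ∧
    ((pos m l = 1 ∧ pos m l' = m) ∨ (pos m l = m ∧ pos m l' = 1)) ∧
    (2 ≤ g ∧ g + 1 ≤ m ∧ 2 ≤ g' ∧ g' + 1 ≤ m) ∧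
    ((c l = x v ∧ c l' = y (v + 2)) ∨ (c l = y v ∧ c l' = x (v + 2)))

lemma FStar.rev {v : ℕ} (h : FStar G R x y m (fun j => c (m + 1 - j)) v) : FStar G R x y m c v := by
  obtain ⟨l, g, l', g', s, s', h1, h2, h3, h4, h5⟩ := h
  have r1 := s.rev (by omega)
  have r2 := s'.rev (by omega)
  have e : (fun j => (fun j => c (m + 1 - j)) (m + 1 - j)) = fun j => c (m + 1 - (m + 1 - j)) := rfl
  have l1 := s.l1
  have g1 := s.g1
  have l1' := s'.l1
  have g1' := s'.g1
  have tr : ∀ {v l g : ℕ}, Shp G R x y m (fun j => c (m + 1 - (m + 1 - j))) v l g →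
      Shp G R x y m c v l g := by
    intro v l g s
    have key : ∀ j ≤ m + 1, m + 1 - (m + 1 - j) = j := fun j hj => by omega
    have hl := s.l1
    have hg := s.g1
    refine ⟨s.l1, s.g1, s.leaf, ?_, ?_, ?_, fun j hj hin => s.only j hj ?_, s.mod, s.far, ?_, ?_⟩
    · have := s.me
      simp only [key l hl, key g hg] at this
      exact this
    · have := s.inl
      simp only [key l hl] at this
      exact this
    · have := s.ing
      simp only [key g hg] at this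
      exact this
    · simp only [key j hj]; exact hin
    · obtain ⟨j, j1, j2⟩ := s.px
      simp only [key j j1] at j2
      exact ⟨j, j1, j2⟩
    · obtain ⟨j, j1, j2⟩ := s.py
      simp only [key j j1] at j2
      exact ⟨j, j1, j2⟩
  refine ⟨m + 1 - l, m + 1 - g, m + 1 - l', m + 1 - g', tr r1, tr r2, h1, h2, ?_, by omega, h5⟩
  rw [pos_rev (by omega) l1, pos_rev (by omega) l1']
  omega

section

variable (hG : ClassC G R) (hc : Crit G R) (hm : 6 ≤ m) {v : ℕ} (h1 : 2 ≤ v) (h2 : v + 3 ≤ k)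
  {l g l' g' : ℕ}
include hG hc hm h1 h2

lemma l_AA (hcat : Cat G R m z c) (h : Chn G R k x y)
    (hun : ∀ j ≤ m + 1, c j ≠ x (v + 1) ∧ c j ≠ y (v + 1)) (s : Shp G R x y m c v l g)
    (s' : Shp G R x y m c (v + 2) l' g') (pl : pos m l = 1) (pg : pos m g ≠ m)
    (pl' : pos m l' = 1) (pg' : pos m g' ≠ m) : False := by
  obtain ⟨f, cur, L, W, w⟩ := fw_of hG hc hcat (by omega) h h1 h2 s.px s.py s'.px s'.py hun
  refine fuf_AA w hm (s.win ?_ ?_) (s'.win ?_ ?_) pl pl' pg pg'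
  · show x (v - 1 + 1) = x v
    rw [show v - 1 + 1 = v by omega]
  · show y (v - 1 + 1) = y v
    rw [show v - 1 + 1 = v by omega]
  · show x (v - 1 + 3) = x (v + 2)
    rw [show v - 1 + 3 = v + 2 by omega]
  · show y (v - 1 + 3) = y (v + 2)
    rw [show v - 1 + 3 = v + 2 by omega]

lemma l_LLA (hcat : Cat G R m z c) (h : Chn G R k x y)
    (hun : ∀ j ≤ m + 1, c j ≠ x (v + 1) ∧ c j ≠ y (v + 1)) (s : Shp G R x y m c v l g)
    (s' : Shp G R x y m c (v + 2) l' g') (pl : pos m l = 1) (pg : pos m g = m)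
    (pl' : pos m l' = 1) (pg' : pos m g' ≠ m) : False := by
  obtain ⟨f, cur, L, W, w⟩ := fw_of hG hc hcat (by omega) h h1 h2 s.px s.py s'.px s'.py hun
  refine fuf_LLA w hm (s.win ?_ ?_) (s'.win ?_ ?_) pl pl' pg pg'
  · show x (v - 1 + 1) = x v
    rw [show v - 1 + 1 = v by omega]
  · show y (v - 1 + 1) = y v
    rw [show v - 1 + 1 = v by omega]
  · show x (v - 1 + 3) = x (v + 2)
    rw [show v - 1 + 3 = v + 2 by omega]
  · show y (v - 1 + 3) = y (v + 2)
    rw [show v - 1 + 3 = v + 2 by omega]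

lemma l_LLLL (hcat : Cat G R m z c) (h : Chn G R k x y)
    (hun : ∀ j ≤ m + 1, c j ≠ x (v + 1) ∧ c j ≠ y (v + 1)) (s : Shp G R x y m c v l g)
    (s' : Shp G R x y m c (v + 2) l' g') (pl : pos m l = 1) (pg : pos m g = m)
    (pl' : pos m l' = 1) (pg' : pos m g' = m) : False := by
  obtain ⟨f, cur, L, W, w⟩ := fw_of hG hc hcat (by omega) h h1 h2 s.px s.py s'.px s'.py hun
  refine fuf_LLLL w hm (s.win ?_ ?_) (s'.win ?_ ?_) pl pl' pg pg'
  · show x (v - 1 + 1) = x v
    rw [show v - 1 + 1 = v by omega]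
  · show y (v - 1 + 1) = y v
    rw [show v - 1 + 1 = v by omega]
  · show x (v - 1 + 3) = x (v + 2)
    rw [show v - 1 + 3 = v + 2 by omega]
  · show y (v - 1 + 3) = y (v + 2)
    rw [show v - 1 + 3 = v + 2 by omega]

lemma l_AB (hcat : Cat G R m z c) (h : Chn G R k x y)
    (hun : ∀ j ≤ m + 1, c j ≠ x (v + 1) ∧ c j ≠ y (v + 1)) (s : Shp G R x y m c v l g)
    (s' : Shp G R x y m c (v + 2) l' g') (pl : pos m l = 1) (pg : pos m g ≠ m)
    (pl' : pos m l' = m) (pg' : pos m g' ≠ 1) : FStar G R x y m c v := by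
  obtain ⟨f, cur, L, W, w⟩ := fw_of hG hc hcat (by omega) h h1 h2 s.px s.py s'.px s'.py hun
  have ex1 : (fun i => x (v - 1 + i)) 1 = x v := by
    show x (v - 1 + 1) = x v
    rw [show v - 1 + 1 = v by omega]
  have ey1 : (fun i => y (v - 1 + i)) 1 = y v := by
    show y (v - 1 + 1) = y v
    rw [show v - 1 + 1 = v by omega]
  have ex3 : (fun i => x (v - 1 + i)) 3 = x (v + 2) := by
    show x (v - 1 + 3) = x (v + 2)
    rw [show v - 1 + 3 = v + 2 by omega]
  have ey3 : (fun i => y (v - 1 + i)) 3 = y (v + 2) := by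
    show y (v - 1 + 3) = y (v + 2)
    rw [show v - 1 + 3 = v + 2 by omega]
  obtain ⟨q1, q2, q3, q4, q5⟩ := fuf_AB w hm (s.win ex1 ey1) (s'.win ex3 ey3) pl pl' pg pg'
  have hmod := s.mod
  have hmod' := s'.mod
  have g1 := s.g1
  have g1' := s'.g1
  obtain ⟨eg, g2, g3⟩ := g_inner s.g1 (by rw [posm (by omega) (by omega)]; omega) pg
  obtain ⟨eg', g2', g3'⟩ := g_inner s'.g1 pg' (by rw [posm (by omega) (by omega)]; omega)
  rw [pl, eg] at hmod
  rw [pl', eg'] at hmod'
  refine ⟨l, g, l', g', s, s', q1, by omega, Or.inl ⟨pl, pl'⟩, by omega, ?_⟩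
  rw [show v - 1 + 1 = v by omega, show v - 1 + 3 = v + 2 by omega] at q5
  have nv : x v ≠ y v := (h.me v (by omega) (by omega)).ne
  have nv2 : x (v + 2) ≠ y (v + 2) := (h.me (v + 2) (by omega) (by omega)).ne
  rcases q5 with ⟨a, b⟩ | ⟨a, b⟩
  · right
    constructor
    · rcases s.inl with e | e
      · exact absurd (e.trans a.symm) s.me.ne
      · exact e
    · rcases s'.inl with e | e
      · exact e
      · exact absurd (e.trans b.symm) s'.me.ne
  · left
    constructor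
    · rcases s.inl with e | e
      · exact e
      · exact absurd (e.trans a.symm) s.me.ne
    · rcases s'.inl with e | e
      · exact absurd (e.trans b.symm) s'.me.ne
      · exact e

end

/-- **Two full units around an unseen unit, inside a chain**: only the exceptional structure. -/
theorem fufi (hG : ClassC G R) (hc : Crit G R) (hcat : Cat G R m z c) (hm : 6 ≤ m)
    (h : Chn G R k x y) {v : ℕ} (h1 : 2 ≤ v) (h2 : v + 3 ≤ k) (a1 : ∃ j ≤ m + 1, c j = x v)
    (a2 : ∃ j ≤ m + 1, c j = y v) (a3 : ∃ j ≤ m + 1, c j = x (v + 2))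
    (a4 : ∃ j ≤ m + 1, c j = y (v + 2))
    (hun : ∀ j ≤ m + 1, c j ≠ x (v + 1) ∧ c j ≠ y (v + 1)) : FStar G R x y m c v := by
  obtain ⟨l, g, s⟩ := shp hG hc hcat (by omega) h h1 (by omega) a1 a2
  obtain ⟨l', g', s'⟩ := shp hG hc hcat (by omega) h (v := v + 2) (by omega) (by omega) a3 a4
  obtain ⟨l, g, s, hs⟩ := s.norm hm
  obtain ⟨l', g', s', hs'⟩ := s'.norm hm
  have hcr := cat_rev hcat
  have hunr : ∀ j ≤ m + 1, c (m + 1 - j) ≠ x (v + 1) ∧ c (m + 1 - j) ≠ y (v + 1) :=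
    fun j hj => hun _ (by omega)
  have pr : ∀ j ≤ m + 1, pos m (m + 1 - j) = m + 1 - pos m j := fun j hj => pos_rev (by omega) hj
  -- mirror image
  have hch' := Chn.rev h
  have hunm : ∀ j ≤ m + 1, c j ≠ y (k + 1 - (k - 1 - v + 1)) ∧ c j ≠ x (k + 1 - (k - 1 - v + 1)) := by
    intro j hj
    rw [show k + 1 - (k - 1 - v + 1) = v + 1 by omega]
    exact (hun j hj).symm
  have sm : Shp G R (fun i => y (k + 1 - i)) (fun i => x (k + 1 - i)) m c (k - 1 - v + 2) l g :=
    s.mir (by show y (k + 1 - (k - 1 - v + 2)) = y v; rw [show k + 1 - (k - 1 - v + 2) = v by omega])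
      (by show x (k + 1 - (k - 1 - v + 2)) = x v; rw [show k + 1 - (k - 1 - v + 2) = v by omega])
  have sm' : Shp G R (fun i => y (k + 1 - i)) (fun i => x (k + 1 - i)) m c (k - 1 - v) l' g' :=
    s'.mir (by show y (k + 1 - (k - 1 - v)) = y (v + 2); rw [show k + 1 - (k - 1 - v) = v + 2 by omega])
      (by show x (k + 1 - (k - 1 - v)) = x (v + 2); rw [show k + 1 - (k - 1 - v) = v + 2 by omega])
  have l1 := s.l1
  have g1 := s.g1
  have l1' := s'.l1
  have g1' := s'.g1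
  have leafg : ∀ g ≤ m + 1, pos m g = m → g = 0 ∨ g = 1 ∨ g = m ∨ g = m + 1 := by
    intro g g1 pg
    by_contra hcon
    have e := posm (m := m) (j := g) (by omega) (by omega)
    rw [e] at pg
    omega
  have bl := pos_mem (show 1 ≤ m by omega) l1
  have bg := pos_mem (show 1 ≤ m by omega) g1
  have bl' := pos_mem (show 1 ≤ m by omega) l1'
  have bg' := pos_mem (show 1 ≤ m by omega) g1'
  rcases hs with ⟨pl, pg⟩ | ⟨pl, pg⟩ | ⟨pl, pg⟩ <;> rcases hs' with ⟨pl', pg'⟩ | ⟨pl', pg'⟩ | ⟨pl', pg'⟩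
  · exact (l_AA hG hc hm h1 h2 hcat h hun s s' pl pg pl' pg').elim
  · exact l_AB hG hc hm h1 h2 hcat h hun s s' pl pg pl' pg'
  · exact (l_LLA hG hc hm (v := k - 1 - v) (by omega) (by omega) hcat hch' hunm sm' sm pl' pg' pl
      pg).elim
  · refine FStar.rev (l_AB hG hc hm h1 h2 hcr h hunr (s.rev (by omega)) (s'.rev (by omega)) ?_ ?_ ?_ ?_)
    · rw [pr _ l1]; omega
    · rw [pr _ g1]; omega
    · rw [pr _ l1']; omega
    · rw [pr _ g1']; omega
  · refine (l_AA hG hc hm h1 h2 hcr h hunr (s.rev (by omega)) (s'.rev (by omega)) ?_ ?_ ?_ ?_).elim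
    · rw [pr _ l1]; omega
    · rw [pr _ g1]; omega
    · rw [pr _ l1']; omega
    · rw [pr _ g1']; omega
  · refine (l_LLA hG hc hm (v := k - 1 - v) (by omega) (by omega) hcr hch' (fun j hj => hunm _ (by omega))
      ((sm'.swap (leafg _ g1' pg')).rev (by omega)) (sm.rev (by omega)) ?_ ?_ ?_ ?_).elim
    · rw [pr _ g1']; omega
    · rw [pr _ l1']; omega
    · rw [pr _ l1]; omega
    · rw [pr _ g1]; omega
  · exact (l_LLA hG hc hm h1 h2 hcat h hun s s' pl pg pl' pg').elim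
  · refine (l_LLA hG hc hm h1 h2 hcr h hunr ((s.swap (leafg _ g1 pg)).rev (by omega))
      (s'.rev (by omega)) ?_ ?_ ?_ ?_).elim
    · rw [pr _ g1]; omega
    · rw [pr _ l1]; omega
    · rw [pr _ l1']; omega
    · rw [pr _ g1']; omega
  · exact (l_LLLL hG hc hm h1 h2 hcat h hun s s' pl pg pl' pg').elim

end CLB.H45
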