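import Pool.Agent.Helper45_DA.SFUF
import Pool.Agent.Helper3_DA.FufAsm

/-!
No full units at distance two inside an open chain.
-/

set_option autoImplicit false

namespace CLB.H45

open CLB.H95

theorem sFuf : CLB.H3.SFuf := by
  intro V _ G R k m x y z c hG hc h hk e1 e2 hcat _ hs hun h1
  exact sfuf hG hc h hk e1 e2 hcat hs hun h1

/-- **FufAll.** -/
theorem fufAll : CLB.H3.FufAll := CLB.H3.fufAll_of sFuf

end CLB.H45
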