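import Pool.Agent.Helper95_CLB.UStarW
import Pool.Agent.Helper95_CLB.WinS
import Pool.Agent.Helper3_DA.Beta

/-!
Windows inside a chain (walls on both sides).
-/

set_option autoImplicit false
set_option linter.unusedSectionVars false

namespace CLB.H45

open Finset Classical
open H3DA (Q neg nr)
open CLB.H3 (CExt Cat IsTwo Fits UPath he_of_unc cat_structure chn_side KTight exists_ktight no_cext
  Leaf cext_or fits_other)
open CLB.H95

variable {V : Type*} {G : SimpleGraph V} {R : V → Bool} [Fintype V] {k r : ℕ} {x y X Y : ℕ → V}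
  {m : ℕ} {z c : ℕ → V} {f : V → Q} {cur : ℕ → Q} {L W : Q}

/-- A window inside a chain with its current labels. -/
structure IW (G : SimpleGraph V) (R : V → Bool) (r : ℕ) (X Y : ℕ → V) (m : ℕ) (z c : ℕ → V)
    (f : V → Q) (cur : ℕ → Q) (L W : Q) : Prop where
  hG : ClassC G R
  hc : Crit G R
  cat : Cat G R m z c
  hm : 2 ≤ m
  ch : Chn G R r X Y
  ncyc : ¬ Lk G R (Y r) (X 1)
  off : OffC G R r X Y f
  tight : ∃ D, Tight D (fun j => f (c j)) m
  cle : ∀ v, lbl r X Y cur f v = f v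
  nwk : Nwk r cur
  wl : ∀ t, nr t L = true ↔ ∀ v, Lk G R (X 1) v → nr (sg 1 t) (f v) = true
  wr : ∀ t, nr t W = true ↔ ∀ v, Lk G R (Y r) v → nr (neg (sg r t)) (f v) = true
  hL : nr (cur 1) L = true
  hW : nr (cur r) W = true
  lkX : ∀ i, 1 ≤ i → i ≤ r → ∃ w, Lk G R (X i) w
  lkY : ∀ i, 1 ≤ i → i ≤ r → ∃ w, Lk G R (Y i) w
  two : ∀ v a b, IsTwo G R v a b → f a ≠ neg (f b)
  oth : ∀ m' z' c', Cat G R m' z' c' → cSupp m' z' ≠ cSupp m z → CExt m' (fun j => f (c' j))

/-- Windows exist. -/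
theorem iw_of (hG : ClassC G R) (hc : Crit G R) (hcat : Cat G R m z c) (hm : 2 ≤ m)
    (h : Chn G R k x y) {D : Ty} (hK : KTight G R m z c f D) {a b : ℕ} (ha : 2 ≤ a) (hab : a ≤ b)
    (hb : b + 1 ≤ k) (hin : ∃ j ≤ m + 1, ∃ i, a ≤ i ∧ i ≤ b ∧ (c j = x i ∨ c j = y i)) :
    ∃ f' cur L W, IW G R (b + 1 - a) (fun i => x (a - 1 + i)) (fun i => y (a - 1 + i)) m z c f' cur
      L W ∧ ∀ v, Cov G R v → f' v = f v := by
  obtain ⟨j, hj, hin⟩ := hin
  obtain ⟨f', h1, h2⟩ := exists_offw hcat hm hK hj ((inC_sub (by omega) hab).2 hin)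
  obtain ⟨e1, e2, e3, e4⟩ := fits_other hcat hK.ok
  have hch := h.sub (a := a) (b := b) (by omega) hab (by omega)
  have me : ∀ i, 1 ≤ i → i ≤ k → f' (y i) = neg (f' (x i)) := by
    intro i i1 i2
    have := h.me i i1 i2
    rw [h2 _ this.cov, h2 _ this.cov']
    exact e1 _ _ this
  have lk : ∀ u v, Lk G R u v → nr (f' u) (f' v) = true := by
    intro u v hl
    rw [h2 _ hl.2.1, h2 _ hl.2.2]
    exact e2 _ _ hl
  have lL : Lk G R (y (a - 1)) (x a) := by
    have := h.lk (a - 1) (by omega) (by omega)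
    rwa [show a - 1 + 1 = a by omega] at this
  have lW : Lk G R (y b) (x (b + 1)) := h.lk b (by omega) (by omega)
  have eL : ∀ v, Lk G R (x a) v → v = y (a - 1) := fun v hv => hv.unique hG lL.symm
  have eW : ∀ v, Lk G R (y b) v → v = x (b + 1) := fun v hv => hv.unique hG lW
  have key : ∀ (i : ℕ) (t q : Q), nr t (sg i q) = nr (sg i t) q := by
    intro i t q
    rw [← nr_sg i (sg i t) q, sg_sg]
  refine ⟨f', fun i => sg i (f' (x (a - 1 + i))), sg 1 (f' (y (a - 1))),
    sg (b + 1 - a) (neg (f' (x (b + 1)))), ⟨hG, hc, hcat, hm, hch, ?_, h1, ⟨D, ?_⟩, ?_, ?_, ?_, ?_, ?_,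
    ?_, ?_, ?_, ?_, ?_⟩, h2⟩
  · show ¬ Lk G R (y (a - 1 + (b + 1 - a))) (x (a - 1 + 1))
    rw [show a - 1 + (b + 1 - a) = b by omega, show a - 1 + 1 = a by omega]
    intro hl
    have := h.injx _ _ (by omega) (by omega) (by omega) (by omega) (eW _ hl)
    omega
  · have e : ∀ j ≤ m + 1, f' (c j) = f (c j) := fun j hj => h2 _ (hcat.cov j hj)
    obtain ⟨t1, t2, t3⟩ := hK.tight
    refine ⟨?_, fun i i1 i2 => ?_, ?_⟩
    · show frk D (f' (c 0)) (f' (c 1)) = true
      rw [e 0 (by omega), e 1 (by omega)]; exact t1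
    · show stp (altT D i) (neg (f' (c i))) (f' (c (i + 1))) = true
      rw [e i (by omega), e (i + 1) (by omega)]; exact t2 i i1 i2
    · show frk (altT D (m + 1)) (f' (c m)) (f' (c (m + 1))) = true
      rw [e m (by omega), e (m + 1) le_rfl]; exact t3
  · intro v
    by_cases hv : InC (b + 1 - a) (fun i => x (a - 1 + i)) (fun i => y (a - 1 + i)) v
    · obtain ⟨i, i1, i2, rfl | rfl⟩ := hv
      · rw [lbl_x hch i1 i2, sg_sg]
      · rw [lbl_y hch i1 i2, sg_sg, me _ (by omega) (by omega)]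
    · rw [lbl_out hv]
  · intro i i1 i2
    show nr (sg i (f' (x (a - 1 + i)))) (sg (i + 1) (f' (x (a - 1 + (i + 1))))) = true
    have hl := lk _ _ (h.lk (a - 1 + i) (by omega) (by omega))
    rw [me _ (by omega) (by omega)] at hl
    rw [sg_succ, show a - 1 + (i + 1) = a - 1 + i + 1 by omega, ← nr_neg_neg, H3DA.neg_neg]
    have : neg (sg i (f' (x (a - 1 + i)))) = sg i (neg (f' (x (a - 1 + i)))) := by
      unfold sg; split_ifs <;> rfl
    rw [this, nr_sg]
    exact hl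
  · intro t
    rw [key]
    show _ ↔ ∀ v, Lk G R (x (a - 1 + 1)) v → _
    rw [show a - 1 + 1 = a by omega]
    constructor
    · intro ht v hv
      rw [eL v hv]; exact ht
    · intro ht
      exact ht _ lL.symm
  · intro t
    rw [key]
    show _ ↔ ∀ v, Lk G R (y (a - 1 + (b + 1 - a))) v → _
    rw [show a - 1 + (b + 1 - a) = b by omega]
    constructor
    · intro ht v hv
      rw [eW v hv, ← nr_neg_neg, H3DA.neg_neg]; exact ht
    · intro ht
      have := ht _ lW
      rw [← nr_neg_neg, H3DA.neg_neg] at this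
      exact this
  · show nr (sg 1 (f' (x (a - 1 + 1)))) (sg 1 (f' (y (a - 1)))) = true
    rw [nr_sg, show a - 1 + 1 = a by omega]
    exact nr_symm (lk _ _ lL)
  · show nr (sg (b + 1 - a) (f' (x (a - 1 + (b + 1 - a))))) (sg (b + 1 - a) (neg (f' (x (b + 1))))) = true
    rw [nr_sg, show a - 1 + (b + 1 - a) = b by omega, ← nr_neg_neg, H3DA.neg_neg,
      ← me b (by omega) (by omega)]
    exact lk _ _ lW
  · intro i i1 i2
    have := h.lk (a - 1 + i - 1) (by omega) (by omega)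
    rw [show a - 1 + i - 1 + 1 = a - 1 + i by omega] at this
    exact ⟨_, this.symm⟩
  · intro i i1 i2
    exact ⟨_, h.lk (a - 1 + i) (by omega) (by omega)⟩
  · intro v p q hT
    have := e3 v p q hT
    obtain ⟨t1, t2, t3, t4, t5, t6, t7⟩ := hT
    rw [h2 _ t5, h2 _ t6]
    exact this
  · intro m' z' c' hC hne
    refine cext_congr (fun j hj => (h2 _ (hC.cov j hj)).symm) (e4 m' z' c' hC (fun v hv hv' => hne ?_))
    exact cSupp_eq hC hcat hv' hv

/-- Both vertices of the unit belong to the caterpillar. -/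
def Own (X Y : ℕ → V) (m : ℕ) (c : ℕ → V) (i : ℕ) : Prop :=
  (∃ j ≤ m + 1, c j = X i) ∧ ∃ j ≤ m + 1, c j = Y i

lemma IW.own_prt (w : IW G R r X Y m z c f cur L W) {i : ℕ} (h1 : 1 ≤ i) (h2 : i ≤ r)
    (ho : Own X Y m c i) {a v : V} (ha : InU X Y i a) (hv : G.Adj v a) (hu : ¬ Cov G R v) :
    v ∈ cSupp m z := by
  obtain ⟨j, hj, he⟩ : ∃ j ≤ m + 1, c j = a := by
    rcases ha with rfl | rfl
    · exact ho.1
    · exact ho.2
  obtain ⟨u, hl⟩ : ∃ u, Lk G R a u := by
    rcases ha with rfl | rfl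
    · exact w.lkX i h1 h2
    · exact w.lkY i h1 h2
  have a1 := cl_mem w.cat.pos hj
  have b1 : z (cl m j) ∈ prt G R a := by
    rw [mem_prt, ← he]; exact ⟨cat_adj_cl w.cat hj, w.cat.unc _ a1.1 a1.2⟩
  have b2 : v ∈ prt G R a := by
    rw [mem_prt]; exact ⟨hv.symm, hu⟩
  have h5 := Finset.card_le_one.1 (prt_card_lk w.hG hl) _ b1 _ b2
  rw [← h5]
  exact mem_cSupp a1.1 a1.2

/-- **Free changes at full units.** -/
theorem IW.free (w : IW G R r X Y m z c f cur L W) {mu : ℕ → Q} (hw : Nwk r mu)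
    (h1 : nr (mu 1) L = true) (h2 : nr (mu r) W = true)
    (h3 : ∀ i, 1 ≤ i → i ≤ r → mu i = cur i ∨ Own X Y m c i) :
    ¬ CExt m (fun j => lbl r X Y mu f (c j)) := by
  have same : ∀ i a, 1 ≤ i → i ≤ r → InU X Y i a → mu i = cur i → lbl r X Y mu f a = f a := by
    intro i a i1 i2 ha he
    rw [← w.cle a, lbl_ul w.ch i1 i2 ha, lbl_ul w.ch i1 i2 ha, he]
  refine win_contra w.hG w.hc w.cat w.ch w.ncyc w.off hw ((w.wl _).1 h1) ((w.wr _).1 h2) ?_ ?_
  · intro v a b hT ha
    have hcase : ∀ a b, IsTwo G R v a b → lbl r X Y mu f a = f a := by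
      intro a b hT
      by_cases hin : InC r X Y a
      · obtain ⟨i, i1, i2, i3⟩ := hin
        rcases h3 i i1 i2 with he | ho
        · exact same i a i1 i2 i3 he
        · exfalso
          obtain ⟨l, l1, l2, l3⟩ := w.own_prt i1 i2 ho i3 hT.2.1 hT.1
          rw [← l3] at hT
          exact isTwo_not_cat w.cat l1 l2 hT
      · exact lbl_out hin
    rw [hcase a b hT, hcase b a (isTwo_symm hT)]
    exact w.two v a b hT
  · intro m' z' c' hC hex hne
    refine cext_congr (fun j hj => ?_) (w.oth m' z' c' hC hne)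
    show f (c' j) = lbl r X Y mu f (c' j)
    by_cases hin : InC r X Y (c' j)
    · obtain ⟨i, i1, i2, i3⟩ := hin
      rcases h3 i i1 i2 with he | ho
      · exact (same i _ i1 i2 i3 he).symm
      · exfalso
        have a2 := cl_mem hC.pos hj
        have hu := hC.unc _ a2.1 a2.2
        have := w.own_prt i1 i2 ho i3 (cat_adj_cl hC hj).symm hu
        exact hne (cSupp_eq hC w.cat (mem_cSupp a2.1 a2.2) this)
    · exact (lbl_out hin).symm

/-- No conflict at the forks. -/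
def LOK (r : ℕ) (X Y : ℕ → V) (m : ℕ) (c : ℕ → V) (f : V → Q) (mu : ℕ → Q) : Prop :=
  lbl r X Y mu f (c 0) ≠ neg (lbl r X Y mu f (c 1)) ∧
    lbl r X Y mu f (c m) ≠ neg (lbl r X Y mu f (c (m + 1)))

lemma IW.tight_of (w : IW G R r X Y m z c f cur L W) {mu : ℕ → Q} (hl : LOK r X Y m c f mu)
    (hn : ¬ CExt m (fun j => lbl r X Y mu f (c j))) :
    ∃ D, Tight D (fun j => lbl r X Y mu f (c j)) m := by
  by_contra hcon
  push Not at hcon
  have := w.hm
  exact hn ((cext_iff (by omega)).2 ⟨hl.1, hl.2, hcon⟩)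

/-- The label of a vertex is the label of its unit up to sign. -/
lemma ul_add_const (X : ℕ → V) (i : ℕ) (v : V) : ∃ κ : Q, (κ = (false, false, false) ∨
    κ = (true, true, true)) ∧ ∀ t, ul X i v t = add t κ := by
  have k0 : ∀ t : Q, t = add t (false, false, false) := by decide
  have k1 : ∀ t : Q, neg t = add t (true, true, true) := by decide
  unfold ul sg
  split_ifs
  · exact ⟨_, Or.inl rfl, k0⟩
  · exact ⟨_, Or.inr rfl, k1⟩
  · exact ⟨_, Or.inr rfl, k1⟩
  · refine ⟨_, Or.inl rfl, fun t => ?_⟩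
    rw [H3DA.neg_neg]; exact k0 t

/-- A leaf with its partner outside the window. -/
lemma leaf_desc (X : ℕ → V) (i : ℕ) (v : V) (p : Q) : ∃ h : Q, ∀ t,
    (ul X i v t = neg p ↔ t = neg h) ∧ add (ul X i v t) p = add t h := by
  obtain ⟨κ, -, hκ⟩ := ul_add_const X i v
  refine ⟨add p κ, fun t => ?_⟩
  rw [hκ]
  have k : ∀ t κ p : Q, (add t κ = neg p ↔ t = neg (add p κ)) ∧ add (add t κ) p = add t (add p κ) := by
    decide +kernel
  exact k t κ p

/-- The sums of the forks of a tight caterpillar. -/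
lemma tight_sums {D : Ty} {s : ℕ → Q} (hT : Tight D s m) :
    add (s m) (s (m + 1)) = if m % 2 = 0 then add (s 0) (s 1) else neg (add (s 0) (s 1)) := by
  rw [frk_add _ _ _ hT.1, frk_add _ _ _ hT.2.2]
  unfold altT
  have : ∀ D : Ty, wD (co D) = neg (wD D) := by decide
  split_ifs with h1 h2 h2
  · rfl
  · omega
  · omega
  · exact this D

end CLB.H45
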