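import Pool.Agent.Helper45_DA.IntWin
import Pool.Agent.Helper3_DA.FLemma
import Pool.Agent.Helper95_CLB.Bad

/-!
The ports of a full unit inside a chain.
-/

set_option autoImplicit false
set_option linter.unusedSectionVars false

namespace CLB.H45

open Finset Classical
open H3DA (Q neg nr)
open CLB.H3 (CExt Cat pos full_leaf mates_dist TB)
open CLB.H95

variable {V : Type*} {G : SimpleGraph V} {R : V → Bool} [Fintype V] {k r : ℕ} {x y X Y : ℕ → V}
  {m : ℕ} {z c : ℕ → V} {f : V → Q} {cur : ℕ → Q} {L W : Q}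

lemma posl (m : ℕ) : pos m 0 = 1 := by unfold pos; rw [if_pos rfl]

lemma posr (m : ℕ) : pos m (m + 1) = m := by
  unfold pos; rw [if_neg (by omega), if_pos rfl]

lemma posm {m j : ℕ} (h1 : 1 ≤ j) (h2 : j ≤ m) : pos m j = j := by
  unfold pos; rw [if_neg (by omega), if_neg (by omega)]

/-- The two ports of a full unit: `l` is a leaf port. -/
structure Shp (G : SimpleGraph V) (R : V → Bool) (x y : ℕ → V) (m : ℕ) (c : ℕ → V) (v l g : ℕ) :
    Prop where
  l1 : l ≤ m + 1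
  g1 : g ≤ m + 1
  leaf : l = 0 ∨ l = 1 ∨ l = m ∨ l = m + 1
  me : Me G R (c l) (c g)
  inl : InU x y v (c l)
  ing : InU x y v (c g)
  only : ∀ j ≤ m + 1, InU x y v (c j) → j = l ∨ j = g
  mod : pos m l % 4 = pos m g % 4
  far : pos m l + 4 ≤ pos m g ∨ pos m g + 4 ≤ pos m l
  px : ∃ j ≤ m + 1, c j = x v
  py : ∃ j ≤ m + 1, c j = y v

lemma one_port (hG : ClassC G R) (hcat : Cat G R m z c) {v u : V} (hl : Lk G R v u) {i j : ℕ}
    (hi : i ≤ m + 1) (hj : j ≤ m + 1) (h1 : c i = v) (h2 : c j = v) : i = j := by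
  refine port_unique hcat hi hj (h1.trans h2.symm) ?_
  have a1 := cl_mem hcat.pos hi
  have a2 := cl_mem hcat.pos hj
  refine Finset.card_le_one.1 (prt_card_lk hG hl) _ ?_ _ ?_
  · rw [mem_prt, ← h1]; exact ⟨cat_adj_cl hcat hi, hcat.unc _ a1.1 a1.2⟩
  · rw [mem_prt, ← h2]; exact ⟨cat_adj_cl hcat hj, hcat.unc _ a2.1 a2.2⟩

theorem shp (hG : ClassC G R) (hc : Crit G R) (hcat : Cat G R m z c) (hm : 2 ≤ m)
    (h : Chn G R k x y) {v : ℕ} (h1 : 2 ≤ v) (h2 : v + 1 ≤ k) (a1 : ∃ j ≤ m + 1, c j = x v)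
    (a2 : ∃ j ≤ m + 1, c j = y v) : ∃ l g, Shp G R x y m c v l g := by
  have b1 := a1
  have b2 := a2
  obtain ⟨j, j1, j2⟩ := a1
  obtain ⟨j', j1', j2'⟩ := a2
  have lx : Lk G R (x v) (y (v - 1)) := by
    have := h.lk (v - 1) (by omega) (by omega)
    rw [show v - 1 + 1 = v by omega] at this
    exact this.symm
  have ly : Lk G R (y v) (x (v + 1)) := h.lk v (by omega) (by omega)
  have hme : Me G R (c j) (c j') := by rw [j2, j2']; exact h.me v (by omega) (by omega)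
  have ux : ∀ i ≤ m + 1, c i = x v → i = j := fun i hi he => one_port hG hcat lx hi j1 he j2
  have uy : ∀ i ≤ m + 1, c i = y v → i = j' := fun i hi he => one_port hG hcat ly hi j1' he j2'
  have hd := mates_dist hG hc hcat j1 j1' hme
  have hd2 := mate_pos hG hc hcat hm j1 j1' hme
  have hl : ∃ l ≤ m + 1, (c l = c j ∨ c l = c j') ∧ ¬ (2 ≤ l ∧ l + 1 ≤ m) := by
    by_contra hcon
    push Not at hcon
    exact full_leaf hG hc hcat j1 j1' hme (by rw [j2]; exact lx)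
      (fun l l1 l2 => ⟨(hcon l l1 l2).1, (hcon l l1 l2).2⟩)
  obtain ⟨l, l1, l2, l3⟩ := hl
  have l4 : l = 0 ∨ l = 1 ∨ l = m ∨ l = m + 1 := by omega
  have only : ∀ i ≤ m + 1, InU x y v (c i) → i = j ∨ i = j' := by
    rintro i hi (he | he)
    · exact Or.inl (ux i hi he)
    · exact Or.inr (uy i hi he)
  rcases l2 with l2 | l2
  · have : l = j := ux l l1 (l2.trans j2)
    subst this
    exact ⟨l, j', ⟨j1, j1', l4, hme, Or.inl j2, Or.inr j2', only, hd.1, hd2, b1, b2⟩⟩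
  · have : l = j' := uy l l1 (l2.trans j2')
    subst this
    exact ⟨l, j, ⟨j1', j1, l4, hme.symm, Or.inr j2', Or.inl j2, fun i hi he => (only i hi he).symm,
      hd.1.symm, hd2.symm, b1, b2⟩⟩

/-- Reversal. -/
lemma Shp.rev {v l g : ℕ} (s : Shp G R x y m c v l g) (hm : 2 ≤ m) :
    Shp G R x y m (fun j => c (m + 1 - j)) v (m + 1 - l) (m + 1 - g) := by
  have pr : ∀ j ≤ m + 1, pos m (m + 1 - j) = m + 1 - pos m j := by
    intro j hj
    unfold pos
    split_ifs <;> omega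
  have e1 := s.l1
  have e2 := s.g1
  have b1 := pos_mem (show 1 ≤ m by omega) e1
  have b2 := pos_mem (show 1 ≤ m by omega) e2
  have hmod := s.mod
  have hfar := s.far
  have pp : ∀ w : V, (∃ j ≤ m + 1, c j = w) → ∃ j ≤ m + 1, c (m + 1 - j) = w := by
    rintro w ⟨j, j1, j2⟩
    exact ⟨m + 1 - j, by omega, by rw [show m + 1 - (m + 1 - j) = j by omega]; exact j2⟩
  refine ⟨by omega, by omega, ?_, ?_, ?_, ?_, fun j hj hin => ?_, ?_, ?_, pp _ s.px, pp _ s.py⟩
  · rcases s.leaf with h | h | h | h <;> omega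
  · show Me G R (c (m + 1 - (m + 1 - l))) (c (m + 1 - (m + 1 - g)))
    rw [show m + 1 - (m + 1 - l) = l by omega, show m + 1 - (m + 1 - g) = g by omega]
    exact s.me
  · show InU x y v (c (m + 1 - (m + 1 - l)))
    rw [show m + 1 - (m + 1 - l) = l by omega]; exact s.inl
  · show InU x y v (c (m + 1 - (m + 1 - g)))
    rw [show m + 1 - (m + 1 - g) = g by omega]; exact s.ing
  · rcases s.only _ (by omega) hin with h | h <;> omega
  · rw [pr _ e1, pr _ e2]; omega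
  · rw [pr _ e1, pr _ e2]; omega

/-! ### Windows -/

/-- A tight labelling for a walk. -/
lemma IW.walk (w : IW G R r X Y m z c f cur L W) {mu : ℕ → Q} (hw : Nwk r mu)
    (h1 : nr (mu 1) L = true) (h2 : nr (mu r) W = true)
    (h3 : ∀ i, 1 ≤ i → i ≤ r → mu i = cur i ∨ Own X Y m c i) (hl : LOK r X Y m c f mu) :
    ∃ D, Tight D (fun j => lbl r X Y mu f (c j)) m :=
  w.tight_of hl (w.free hw h1 h2 h3)

/-- The current labels are tight. -/
lemma IW.cur_tight (w : IW G R r X Y m z c f cur L W) :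
    ∃ D, Tight D (fun j => lbl r X Y cur f (c j)) m := by
  obtain ⟨D, h⟩ := w.tight
  refine ⟨D, ?_⟩
  have : (fun j => lbl r X Y cur f (c j)) = fun j => f (c j) := funext fun j => w.cle _
  rw [this]; exact h

/-- The number of labels of a port. -/
lemma IW.tb_card (w : IW G R r X Y m z c f cur L W) {g i b : ℕ} (i1 : 1 ≤ i)
    (i2 : i ≤ r) (hin : InU X Y i (c g)) (hB : TB m (fun j => InC r X Y (c j)) (fun j => f (c j)) g b)
    {S : Finset Q} (hS : ∀ t ∈ S, ∃ mu D, mu i = t ∧ Tight D (fun j => lbl r X Y mu f (c j)) m) :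
    S.card ≤ b := by
  obtain ⟨B, hB, hall⟩ := hB
  refine le_trans ?_ hB
  refine Finset.card_le_card_of_injOn (fun t => ul X i (c g) t) (fun t ht => ?_)
    (fun s _ t _ hst => ul_inj X i (c g) hst)
  obtain ⟨mu, D, e, hT⟩ := hS t (mem_coe.1 ht)
  have := hall _ (fun j _ hn => lbl_out hn) D hT
  rw [mem_coe]
  have e2 : lbl r X Y mu f (c g) = ul X i (c g) (mu i) := lbl_ul w.ch i1 i2 hin
  have this' : lbl r X Y mu f (c g) ∈ B := this
  rw [e2, e] at this'
  exact this'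

/-- The left fork: one leaf port in the window, its partner outside. -/
lemma forkL (hch : Chn G R r X Y) {l i : ℕ} (hl : l = 0 ∨ l = 1) (i1 : 1 ≤ i) (i2 : i ≤ r)
    (hin : InU X Y i (c l)) (hout : ¬ InC r X Y (c (1 - l))) :
    ∃ h : Q, ∀ mu : ℕ → Q, (lbl r X Y mu f (c 0) ≠ neg (lbl r X Y mu f (c 1)) ↔ mu i ≠ neg h) ∧
      add (lbl r X Y mu f (c 0)) (lbl r X Y mu f (c 1)) = add (mu i) h := by
  obtain ⟨h, hh⟩ := leaf_desc X i (c l) (f (c (1 - l)))
  refine ⟨h, fun mu => ?_⟩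
  have e1 : lbl r X Y mu f (c l) = ul X i (c l) (mu i) := lbl_ul hch i1 i2 hin
  have e2 : lbl r X Y mu f (c (1 - l)) = f (c (1 - l)) := lbl_out hout
  have k1 : ∀ a b : Q, a = neg b ↔ b = neg a := by decide
  have k2 : ∀ a b : Q, add a b = add b a := by decide
  rcases hl with rfl | rfl
  · rw [show (1 : ℕ) - 0 = 1 from rfl] at e2 hh
    rw [e1, e2]
    exact ⟨not_congr (hh _).1, (hh _).2⟩
  · rw [show (1 : ℕ) - 1 = 0 from rfl] at e2 hh
    rw [e1, e2]
    exact ⟨not_congr ((k1 _ _).trans (hh _).1), (k2 _ _).trans (hh _).2⟩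

/-- The right fork. -/
lemma forkR (hch : Chn G R r X Y) {l i : ℕ} (hl : l = m ∨ l = m + 1) (i1 : 1 ≤ i)
    (i2 : i ≤ r) (hin : InU X Y i (c l)) (hout : ¬ InC r X Y (c (2 * m + 1 - l))) :
    ∃ h : Q, ∀ mu : ℕ → Q, (lbl r X Y mu f (c m) ≠ neg (lbl r X Y mu f (c (m + 1))) ↔ mu i ≠ neg h) ∧
      add (lbl r X Y mu f (c m)) (lbl r X Y mu f (c (m + 1))) = add (mu i) h := by
  obtain ⟨h, hh⟩ := leaf_desc X i (c l) (f (c (2 * m + 1 - l)))
  refine ⟨h, fun mu => ?_⟩
  have e1 : lbl r X Y mu f (c l) = ul X i (c l) (mu i) := lbl_ul hch i1 i2 hin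
  have e2 : lbl r X Y mu f (c (2 * m + 1 - l)) = f (c (2 * m + 1 - l)) := lbl_out hout
  have k1 : ∀ a b : Q, a = neg b ↔ b = neg a := by decide
  have k2 : ∀ a b : Q, add a b = add b a := by decide
  rcases hl with rfl | rfl
  · rw [show 2 * l + 1 - l = l + 1 by omega] at e2 hh
    rw [e1, e2]
    exact ⟨not_congr (hh _).1, (hh _).2⟩
  · rw [show 2 * m + 1 - (m + 1) = m by omega] at e2 hh
    rw [e1, e2]
    exact ⟨not_congr ((k1 _ _).trans (hh _).1), (k2 _ _).trans (hh _).2⟩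

end CLB.H45
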